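import Pool.Agent.SMQ.Defs

/-!
# PPR: the archimedean part of PP3 (positive proportion of imaginary quadratic fields with `3 ∣ h`)

`(p, y, g, N)` are the integers of a triple with `Nᵢ Δ = yᵢ gⱼ gₖ - p gᵢ²`, `Δ = y₁ y₂ y₃ - p³`.
A shell: `rᵢ² ≤ Nᵢ ≤ 2 rᵢ²`, `max |gᵢ| / √Nᵢ ∈ [t, 2 t)` and `|g₁| / √N₁` is the smallest of the three.
-/

set_option autoImplicit false

namespace Pool.Agent.PPR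

open Pool.Agent.SMQ

/-- the real data of a point `g` of a shell; the index `1` is the smallest one -/
structure Sh (r1 r2 r3 t p y1 y2 y3 g1 g2 g3 N1 N2 N3 : ℝ) : Prop where
  r1p : 0 < r1
  r2p : 0 < r2
  r3p : 0 < r3
  tp : 0 < t
  n1 : r1 ^ 2 ≤ N1
  n1' : N1 ≤ 2 * r1 ^ 2
  n2 : r2 ^ 2 ≤ N2
  n2' : N2 ≤ 2 * r2 ^ 2
  n3 : r3 ^ 2 ≤ N3
  n3' : N3 ≤ 2 * r3 ^ 2
  m1 : N1 * (y1 * y2 * y3 - p ^ 3) = y1 * g2 * g3 - p * g1 ^ 2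
  m2 : N2 * (y1 * y2 * y3 - p ^ 3) = y2 * g3 * g1 - p * g2 ^ 2
  m3 : N3 * (y1 * y2 * y3 - p ^ 3) = y3 * g1 * g2 - p * g3 ^ 2
  u1 : |g1| ≤ 3 * (r1 * t)
  l2 : r2 * t ≤ 2 * |g2|
  u2 : |g2| ≤ 3 * (r2 * t)
  l3 : r3 * t ≤ 2 * |g3|
  u3 : |g3| ≤ 3 * (r3 * t)

/-- a class `S` of points `g` (with the base point `g0`): the vectors `x(g) = e (g0 × g) / Δ` belong to the
plane lattice `Λ` -/
structure Cls (Δ e I Q : ℝ) (g0 : V3) (N1 N2 N3 : ℝ) (Λ : AddSubgroup V3) (S : Finset V3) :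
    Prop where
  mem : ∀ g ∈ S, ∃ k ∈ Λ, Δ * (k.1 : ℝ) = e * ((cr g0 g).1 : ℝ) ∧
    Δ * (k.2.1 : ℝ) = e * ((cr g0 g).2.1 : ℝ) ∧ Δ * (k.2.2 : ℝ) = e * ((cr g0 g).2.2 : ℝ)
  orth : ∀ k ∈ Λ, dt k g0 = 0
  lb2 : ∀ k ∈ Λ, k ≠ 0 → √Q * |(g0.2.1 : ℝ)| ≤ √N2 * (|(k.1 : ℝ)| * √N1 + |(k.2.2 : ℝ)| * √N3)
  lb3 : ∀ k ∈ Λ, k ≠ 0 → √Q * |(g0.2.2 : ℝ)| ≤ √N3 * (|(k.1 : ℝ)| * √N1 + |(k.2.1 : ℝ)| * √N2)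
  /-- `k × k'` is a multiple of `I g0` -/
  det : ∀ k ∈ Λ, ∀ k' ∈ Λ, ∃ n : ℤ, ((cr k k').2.1 : ℝ) = n * (I * g0.2.1) ∧
    ((cr k k').2.2 : ℝ) = n * (I * g0.2.2)
  fib : ∀ g ∈ S, ∀ g' ∈ S, cr g0 g = cr g0 g' → ∃ n : ℤ, g' = g + n • g0

/-- the point `g` is in the shell -/
def In (r1 r2 r3 t p y1 y2 y3 : ℝ) (g : V3) : Prop :=
  ∃ N1 N2 N3 : ℝ, Sh r1 r2 r3 t p y1 y2 y3 g.1 g.2.1 g.2.2 N1 N2 N3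

/-- `a ≤ |x| ≤ 2 a` -/
def Dy (a x : ℝ) : Prop := 0 < a ∧ a ≤ |x| ∧ |x| ≤ 2 * a

/-- `min (t²) (Δ / p)` -/
noncomputable def mm (t ph Dh : ℝ) : ℝ := min (t ^ 2) (Dh / ph)

/-- `min (r₁ r₂ r₃ t²) (r³ Δ / y)` -/
noncomputable def Lc (U t r yh Dh : ℝ) : ℝ := min (U * t ^ 2) (r ^ 3 * Dh / yh)

/-- the plane term -/
noncomputable def Aa (r1 r2 r3 t Q ph y2h y3h Dh : ℝ) : ℝ :=
  (r1 * r2 * r3 * mm t ph Dh + Lc (r1 * r2 * r3) t r2 y2h Dh + Lc (r1 * r2 * r3) t r3 y3h Dh) /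
    (Dh * √Q * t)

/-- the span term -/
noncomputable def Bb (r1 r2 r3 t ph y2h y3h Dh : ℝ) : ℝ :=
  mm t ph Dh * min (Lc (r1 * r2 * r3) t r2 y2h Dh) (Lc (r1 * r2 * r3) t r3 y3h Dh) / (Dh ^ 2 * t)

/-- the range of the normalised dyadic parameters -/
structure Rg (η1 η2 η3 k μ s : ℝ) : Prop where
  p1 : 0 < η1
  p2 : 0 < η2
  p3 : 0 < η3
  pk : 0 < k
  pm : 0 < μ
  ps : 0 < s
  b1 : η1 ≤ 8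
  b2 : η2 ≤ 8
  b3 : η3 ≤ 8
  bk : k ≤ 8
  bm : μ ≤ 512
  bs : s ≤ 16
  hk : k ^ 3 ≤ 8 * (μ + η1 * η2 * η3)
  hs : μ ≤ 300 * s ^ 2

/-- the product of the parameters -/
def Zz (η1 η2 η3 k μ s : ℝ) : ℝ := η1 * η2 * η3 * k * μ * s ^ 2

/-- normalised: the number of `(p, y)` -/
noncomputable def F1 (η1 η2 η3 k μ : ℝ) : ℝ := k * min μ (η1 * η2 * η3)

/-- normalised plane term -/
noncomputable def F2 (η1 η2 η3 k μ s : ℝ) : ℝ :=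
  k * min μ (η1 * η2 * η3) * (min (s ^ 2) (μ / k) + min (s ^ 2) (μ / η2) + min (s ^ 2) (μ / η3)) /
    (μ * s)

/-- normalised span term -/
noncomputable def F3 (η1 η2 η3 k μ s : ℝ) : ℝ :=
  k * min μ (η1 * η2 * η3) * (min (s ^ 2) (μ / k) * min (min (s ^ 2) (μ / η2)) (min (s ^ 2) (μ / η3))) /
    (μ ^ 2 * s)

/-- the total: `(U² / d)² + U³ / (d √Q) + U² / √d`, `U = r₁ r₂ r₃` -/
noncomputable def Tot (U d Q : ℝ) : ℝ := (U ^ 2 / d) ^ 2 + U ^ 3 / (d * √Q) + U ^ 2 / √d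

/-- the number of `(p, y)` in a dyadic box -/
noncomputable def Bx (ph y1h y2h y3h Dh : ℝ) : ℝ := ph * min Dh (y1h * y2h * y3h)

/-- a dyadic box: the sizes of `y₁, y₂, y₃, p, Δ, t` are `2 ^ a₁, 2 ^ a₂, 2 ^ a₃, 2 ^ j, 2 ^ k, τ 2 ^ l` -/
abbrev Ix := ℕ × ℕ × ℕ × ℕ × ℕ × ℕ

/-- the normalised parameters of a dyadic box are in the range -/
def RgI (r1 r2 r3 d τ : ℝ) (x : Ix) : Prop :=
  Rg (2 ^ x.1 * √d / r1 ^ 3) (2 ^ x.2.1 * √d / r2 ^ 3) (2 ^ x.2.2.1 * √d / r3 ^ 3)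
    (2 ^ x.2.2.2.1 * √d / (r1 * r2 * r3)) (2 ^ x.2.2.2.2.1 * √d ^ 3 / (r1 * r2 * r3) ^ 3)
    (τ * 2 ^ x.2.2.2.2.2 * √d / (r1 * r2 * r3))

/-- the product of the normalised parameters of a dyadic box -/
noncomputable def ZI (r1 r2 r3 d τ : ℝ) (x : Ix) : ℝ :=
  Zz (2 ^ x.1 * √d / r1 ^ 3) (2 ^ x.2.1 * √d / r2 ^ 3) (2 ^ x.2.2.1 * √d / r3 ^ 3)
    (2 ^ x.2.2.2.1 * √d / (r1 * r2 * r3)) (2 ^ x.2.2.2.2.1 * √d ^ 3 / (r1 * r2 * r3) ^ 3)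
    (τ * 2 ^ x.2.2.2.2.2 * √d / (r1 * r2 * r3))

/-- the bound for a box: number of `(p, y)` times `1 +` plane term `+` span term -/
noncomputable def BI (r1 r2 r3 Q τ : ℝ) (x : Ix) : ℝ :=
  Bx (2 ^ x.2.2.2.1) (2 ^ x.1) (2 ^ x.2.1) (2 ^ x.2.2.1) (2 ^ x.2.2.2.2.1) *
    (1 + Aa r1 r2 r3 (τ * 2 ^ x.2.2.2.2.2) Q (2 ^ x.2.2.2.1) (2 ^ x.2.1) (2 ^ x.2.2.1)
        (2 ^ x.2.2.2.2.1) +
      Bb r1 r2 r3 (τ * 2 ^ x.2.2.2.2.2) (2 ^ x.2.2.2.1) (2 ^ x.2.1) (2 ^ x.2.2.1)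
        (2 ^ x.2.2.2.2.1))

end Pool.Agent.PPR
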