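import Pool.Agent.PPR.Defs
import Pool.Agent.SMQ.Lat

/-!
# PPR/Clf: the class bound (projection which forgets the index 2)

PROOF.  If `S` is empty the bound is clear.  Put `K1 = e C23 / |Δ|`, `K3 = e C12 / |Δ|`, `V = I r2 t / 2`,
`lam = √Q t / (4 (K1 r1 + K3 r3))`, all positive.  For `g ∈ S` let `k(g) ∈ Λ` be the vector of `hc.mem`; then
`|k(g).1| = e |(cr g0 g).1| / |Δ| ≤ K1` and `|k(g).2.2| ≤ K3`.  Let `Λ'` be the subgroup of all `(k.1, k.2.2)`, `k ∈ Λ`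
(`Λ.map` of the additive homomorphism).  `g0.2.1 ≠ 0` (`l2`), so by `hc.orth` a vector `k ∈ Λ` is determined by
`(k.1, k.2.2)` (the difference `k` of two such vectors has `k.2.1 * g0.2.1 = 0`).
Apply `SMQ.lat` to `Λ'`, `a = K1`, `b = K3`, `lam`, `V` and the set `R` of the points `(k(g).1, k(g).2.2)`:
`hmin`: let `k ∈ Λ`, `k ≠ 0`, `|k.1| < lam K1` and `|k.2.2| < lam K3`; `hc.lb2` with `√N_i ≤ √2 r_i` (`N_i ≤ 2 r_i ^ 2`) gives
`√Q |g0.2.1| ≤ √2 r2 √2 (|k.1| r1 + |k.2.2| r3)`, and `|g0.2.1| ≥ r2 t / 2`, so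
`√Q t / 4 ≤ |k.1| r1 + |k.2.2| r3 < lam (K1 r1 + K3 r3) = √Q t / 4`: contradiction.
`hdet`: `k.1 * k'.2.2 - k.2.2 * k'.1 = - (cr k k').2.1 = - n (I g0.2.1)`; if it is not `0` then `|n| ≥ 1` and it is at least
`I |g0.2.1| ≥ V`.
So `card R ≤ 1 + 2 / lam + 12 K1 K3 / V`, `2 / lam = 8 e (r1 C23 + r3 C12) / (|Δ| √Q t)` and
`12 K1 K3 / V = 24 (e ^ 2 / I) C23 C12 / (Δ ^ 2 r2 t)`.
Fibres: if `g, g' ∈ S` have the same point then `k(g) = k(g')`, so `cr g0 g = cr g0 g'` (`e ≠ 0`), so `g' = g + n • g0` (`fib`) and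
`|n| |g0.2.1| = |g'.2.1 - g.2.1| ≤ 6 r2 t ≤ 12 |g0.2.1|`: `|n| ≤ 12`, for fixed `g` at most 25 vectors `g'`.
So `card S ≤ 25 card R` (`Finset.card_le_mul_card_image`).
-/

set_option autoImplicit false

namespace Pool.Agent.PPR

open Pool.Agent.SMQ

private def clfPhi : V3 →+ ℤ × ℤ where
  toFun k := (k.1, k.2.2)
  map_zero' := rfl
  map_add' _ _ := rfl

private theorem clf_sqrt {N r : ℝ} (hr : 0 < r) (h : N ≤ 2 * r ^ 2) : √N ≤ √2 * r := by
  calc √N ≤ √(2 * r ^ 2) := Real.sqrt_le_sqrt h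
    _ = √2 * r := by rw [Real.sqrt_mul (by norm_num), Real.sqrt_sq hr.le]

private theorem clf_small {Δ e C c k : ℝ} (hΔ : Δ ≠ 0) (he : 0 < e) (h : Δ * k = e * c)
    (hc : |c| ≤ C) : |k| ≤ e * C / |Δ| := by
  have h0 : 0 < |Δ| := abs_pos.2 hΔ
  rw [le_div_iff₀ h0, mul_comm, ← abs_mul, h, abs_mul, abs_of_pos he]
  exact mul_le_mul_of_nonneg_left hc he.le

theorem clf (Δ e I Q r1 r2 r3 t C23 C12 : ℝ) (hΔ : Δ ≠ 0) (he : 0 < e) (hI : 0 < I) (hQ : 0 < Q)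
    (h1 : 0 < r1) (h2 : 0 < r2) (h3 : 0 < r3) (ht : 0 < t) (hC : 0 < C23) (hC' : 0 < C12)
    (g0 : V3) (N1 N2 N3 : ℝ) (n1 : N1 ≤ 2 * r1 ^ 2) (n2 : N2 ≤ 2 * r2 ^ 2) (n3 : N3 ≤ 2 * r3 ^ 2)
    (l2 : r2 * t ≤ 2 * |(g0.2.1 : ℝ)|) (Λ : AddSubgroup V3) (S : Finset V3)
    (hc : Cls Δ e I Q g0 N1 N2 N3 Λ S) (hs : ∀ g ∈ S, |(g.2.1 : ℝ)| ≤ 3 * (r2 * t))
    (c23 : ∀ g ∈ S, |((cr g0 g).1 : ℝ)| ≤ C23) (c12 : ∀ g ∈ S, |((cr g0 g).2.2 : ℝ)| ≤ C12) :
    (S.card : ℝ) ≤ 25 * (1 + 8 * (e * (r1 * C23 + r3 * C12) / (|Δ| * √Q * t)) +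
      24 * (e ^ 2 / I * (C23 * C12) / (Δ ^ 2 * (r2 * t)))) := by
  classical
  have hΔa : 0 < |Δ| := abs_pos.2 hΔ
  have hr2t : 0 < r2 * t := mul_pos h2 ht
  have hg0 : 0 < |(g0.2.1 : ℝ)| := by linarith
  have hg0ne : (g0.2.1 : ℝ) ≠ 0 := abs_pos.1 hg0
  have hsQ : 0 < √Q := Real.sqrt_pos.2 hQ
  obtain ⟨K1, hK1d⟩ : ∃ K1 : ℝ, K1 = e * C23 / |Δ| := ⟨_, rfl⟩
  obtain ⟨K3, hK3d⟩ : ∃ K3 : ℝ, K3 = e * C12 / |Δ| := ⟨_, rfl⟩
  have hK1 : 0 < K1 := by rw [hK1d]; positivity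
  have hK3 : 0 < K3 := by rw [hK3d]; positivity
  have hKK : 0 < K1 * r1 + K3 * r3 := by positivity
  obtain ⟨lam, hlamd⟩ : ∃ lam : ℝ, lam = √Q * t / (4 * (K1 * r1 + K3 * r3)) := ⟨_, rfl⟩
  obtain ⟨V, hVd⟩ : ∃ V : ℝ, V = I * r2 * t / 2 := ⟨_, rfl⟩
  have hlam : 0 < lam := by rw [hlamd]; positivity
  have hV : 0 < V := by rw [hVd]; positivity
  have hlamK : lam * (K1 * r1 + K3 * r3) = √Q * t / 4 := by
    rw [hlamd]
    field_simp
  choose! kf hkΛ hk1 hk2 hk3 using hc.mem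
  -- the lattice bound
  have hlat : (((S.image (fun g => ((kf g).1, (kf g).2.2))).card : ℕ) : ℝ) ≤
      1 + 2 / lam + 12 * (K1 * K3 / V) := by
    apply lat (Λ.map clfPhi) K1 K3 lam V hK1 hK3 hlam hV
    · rintro κ hκ hκ0
      obtain ⟨k, hk, rfl⟩ := AddSubgroup.mem_map.1 hκ
      have hk0 : k ≠ 0 := by
        rintro rfl
        exact hκ0 (map_zero clfPhi)
      by_contra hcon
      push Not at hcon
      obtain ⟨ha, hb⟩ := hcon
      have ha' : |(k.1 : ℝ)| < lam * K1 := ha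
      have hb' : |(k.2.2 : ℝ)| < lam * K3 := hb
      have hlb := hc.lb2 k hk hk0
      have s1 := clf_sqrt h1 n1
      have s2 := clf_sqrt h2 n2
      have s3 := clf_sqrt h3 n3
      have e2 : √2 * √2 = (2 : ℝ) := Real.mul_self_sqrt (by norm_num)
      have a1 : 0 ≤ |(k.1 : ℝ)| := abs_nonneg _
      have a3 : 0 ≤ |(k.2.2 : ℝ)| := abs_nonneg _
      have b1 : |(k.1 : ℝ)| * √N1 + |(k.2.2 : ℝ)| * √N3 ≤
          |(k.1 : ℝ)| * (√2 * r1) + |(k.2.2 : ℝ)| * (√2 * r3) :=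
        add_le_add (mul_le_mul_of_nonneg_left s1 a1) (mul_le_mul_of_nonneg_left s3 a3)
      have b0 : 0 ≤ |(k.1 : ℝ)| * √N1 + |(k.2.2 : ℝ)| * √N3 := by positivity
      have b2 : √N2 * (|(k.1 : ℝ)| * √N1 + |(k.2.2 : ℝ)| * √N3) ≤
          (√2 * r2) * (|(k.1 : ℝ)| * (√2 * r1) + |(k.2.2 : ℝ)| * (√2 * r3)) :=
        mul_le_mul s2 b1 b0 (by positivity)
      have b3 : (√2 * r2) * (|(k.1 : ℝ)| * (√2 * r1) + |(k.2.2 : ℝ)| * (√2 * r3)) =
          r2 * (2 * (|(k.1 : ℝ)| * r1 + |(k.2.2 : ℝ)| * r3)) := by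
        calc _ = (√2 * √2) * (r2 * (|(k.1 : ℝ)| * r1 + |(k.2.2 : ℝ)| * r3)) := by ring
          _ = _ := by rw [e2]; ring
      have b4 : √Q * (r2 * t / 2) ≤ √Q * |(g0.2.1 : ℝ)| :=
        mul_le_mul_of_nonneg_left (by linarith) hsQ.le
      have b5 : r2 * (√Q * t / 4) ≤ r2 * (|(k.1 : ℝ)| * r1 + |(k.2.2 : ℝ)| * r3) := by
        rw [b3] at b2
        have b6 := b4.trans (hlb.trans b2)
        linarith
      have b7 : √Q * t / 4 ≤ |(k.1 : ℝ)| * r1 + |(k.2.2 : ℝ)| * r3 := le_of_mul_le_mul_left b5 h2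
      have b8 : |(k.1 : ℝ)| * r1 < lam * K1 * r1 := mul_lt_mul_of_pos_right ha' h1
      have b9 : |(k.2.2 : ℝ)| * r3 < lam * K3 * r3 := mul_lt_mul_of_pos_right hb' h3
      have b10 : lam * K1 * r1 + lam * K3 * r3 = √Q * t / 4 := by rw [← hlamK]; ring
      linarith
    · rintro κ hκ κ' hκ' hne
      obtain ⟨k, hk, rfl⟩ := AddSubgroup.mem_map.1 hκ
      obtain ⟨k', hk', rfl⟩ := AddSubgroup.mem_map.1 hκ'
      obtain ⟨n, hn, -⟩ := hc.det k hk k' hk'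
      have e1 : (((clfPhi k).1 * (clfPhi k').2 - (clfPhi k).2 * (clfPhi k').1 : ℤ) : ℝ)
          = -(n * (I * g0.2.1)) := by
        rw [← hn]
        simp only [cr, clfPhi, AddMonoidHom.coe_mk, ZeroHom.coe_mk]
        push_cast
        ring
      have hn0 : n ≠ 0 := by
        rintro rfl
        apply hne
        have : (((clfPhi k).1 * (clfPhi k').2 - (clfPhi k).2 * (clfPhi k').1 : ℤ) : ℝ) = 0 := by
          rw [e1]
          simp
        exact_mod_cast this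
      rw [e1, abs_neg, abs_mul, abs_mul, abs_of_pos hI]
      have hn1 : (1 : ℝ) ≤ |(n : ℝ)| := by
        have : 1 ≤ |n| := Int.one_le_abs hn0
        exact_mod_cast this
      have hV2 : V ≤ I * |(g0.2.1 : ℝ)| := by
        rw [hVd]
        have := mul_le_mul_of_nonneg_left l2 hI.le
        linarith
      calc V ≤ I * |(g0.2.1 : ℝ)| := hV2
        _ = 1 * (I * |(g0.2.1 : ℝ)|) := (one_mul _).symm
        _ ≤ |(n : ℝ)| * (I * |(g0.2.1 : ℝ)|) :=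
          mul_le_mul_of_nonneg_right hn1 (by positivity)
    · intro κ hκ
      obtain ⟨g, hg, rfl⟩ := Finset.mem_image.1 hκ
      refine ⟨AddSubgroup.mem_map.2 ⟨kf g, hkΛ g hg, rfl⟩, ?_, ?_⟩
      · rw [hK1d]
        exact clf_small hΔ he (hk1 g hg) (c23 g hg)
      · rw [hK3d]
        exact clf_small hΔ he (hk3 g hg) (c12 g hg)
  -- the fibres
  have hfib : ∀ κ ∈ S.image (fun g => ((kf g).1, (kf g).2.2)),
      (S.filter (fun g => ((kf g).1, (kf g).2.2) = κ)).card ≤ 25 := by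
    intro κ hκ
    obtain ⟨g, hg, rfl⟩ := Finset.mem_image.1 hκ
    have hsub : S.filter (fun g' => ((kf g').1, (kf g').2.2) = ((kf g).1, (kf g).2.2)) ⊆
        (Finset.Icc (-12 : ℤ) 12).image (fun n : ℤ => g + n • g0) := by
      intro g' hg'
      rw [Finset.mem_filter] at hg'
      obtain ⟨hg'S, heq⟩ := hg'
      rw [Prod.mk.injEq] at heq
      obtain ⟨q1, q3⟩ := heq
      have o := hc.orth (kf g) (hkΛ g hg)
      have o' := hc.orth (kf g') (hkΛ g' hg'S)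
      have q2 : (kf g').2.1 = (kf g).2.1 := by
        unfold dt at o o'
        rw [q1, q3] at o'
        have hz : g0.2.1 ≠ 0 := by
          intro h0
          apply hg0ne
          rw [h0]
          simp
        have : (kf g').2.1 * g0.2.1 = (kf g).2.1 * g0.2.1 := by linarith
        exact mul_right_cancel₀ hz this
      have w1 : (cr g0 g).1 = (cr g0 g').1 := by
        have a := hk1 g hg
        have b := hk1 g' hg'S
        rw [q1, a] at b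
        have := mul_left_cancel₀ he.ne' b
        exact_mod_cast this
      have w2 : (cr g0 g).2.1 = (cr g0 g').2.1 := by
        have a := hk2 g hg
        have b := hk2 g' hg'S
        rw [q2, a] at b
        have := mul_left_cancel₀ he.ne' b
        exact_mod_cast this
      have w3 : (cr g0 g).2.2 = (cr g0 g').2.2 := by
        have a := hk3 g hg
        have b := hk3 g' hg'S
        rw [q3, a] at b
        have := mul_left_cancel₀ he.ne' b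
        exact_mod_cast this
      have hcr : cr g0 g = cr g0 g' := Prod.ext w1 (Prod.ext w2 w3)
      obtain ⟨n, hn⟩ := hc.fib g hg g' hg'S hcr
      have hn2 : g'.2.1 = g.2.1 + n * g0.2.1 := by
        rw [hn]
        simp
      have hb1 := hs g hg
      have hb2 := hs g' hg'S
      have hb3 : |(n : ℝ)| * |(g0.2.1 : ℝ)| ≤ 12 * |(g0.2.1 : ℝ)| := by
        rw [← abs_mul]
        have e3 : (n : ℝ) * (g0.2.1 : ℝ) = (g'.2.1 : ℝ) - (g.2.1 : ℝ) := by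
          rw [hn2]
          push_cast
          ring
        rw [e3]
        have := abs_sub (g'.2.1 : ℝ) (g.2.1 : ℝ)
        linarith
      have hb4 : |(n : ℝ)| ≤ 12 := le_of_mul_le_mul_right hb3 hg0
      have hb5 : |n| ≤ 12 := by exact_mod_cast hb4
      rw [abs_le] at hb5
      exact Finset.mem_image.2 ⟨n, Finset.mem_Icc.2 hb5, hn.symm⟩
    refine (Finset.card_le_card hsub).trans (Finset.card_image_le.trans ?_)
    simp
  have hcard := Finset.card_le_mul_card_image (f := fun g => ((kf g).1, (kf g).2.2)) S 25 hfib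
  have hcard' : (S.card : ℝ) ≤
      25 * (((S.image (fun g => ((kf g).1, (kf g).2.2))).card : ℕ) : ℝ) := by
    exact_mod_cast hcard
  refine hcard'.trans ?_
  refine (mul_le_mul_of_nonneg_left hlat (by norm_num)).trans (le_of_eq ?_)
  have hd2 : |Δ| * |Δ| = Δ ^ 2 := by rw [abs_mul_abs_self]; ring
  have f1 : 2 / lam = 8 * (e * (r1 * C23 + r3 * C12) / (|Δ| * √Q * t)) := by
    rw [hlamd, hK1d, hK3d]
    field_simp
    ring
  have f2 : 12 * (K1 * K3 / V) = 24 * (e ^ 2 / I * (C23 * C12) / (Δ ^ 2 * (r2 * t))) := by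
    rw [hVd, hK1d, hK3d, ← hd2]
    field_simp
    ring
  rw [f1, f2]

end Pool.Agent.PPR
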