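import Pool.Agent.PPR.Defs

/-!
# PPR/ClsS: swapping the indices 2 and 3 in a class

`sw k = (k.1, k.2.2, k.2.1)`.
PROOF of `cls_swap`.  `cr (sw a) (sw b) = - sw (cr a b)` and `dt (sw a) (sw b) = dt a b`.  `mem`: for `sw g` take the vector `- sw k`
(`Λ` is closed under negation, so it is in the image of `- k`).  `orth`, `lb2` (from `lb3`, `add_comm` not needed), `lb3` (from `lb2`): clear.
`det`: with `- n`.  `fib`: `sw` is injective and additive.
-/

set_option autoImplicit false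

namespace Pool.Agent.PPR

open Pool.Agent.SMQ

/-- swap the indices 2 and 3 -/
def sw (k : V3) : V3 := (k.1, k.2.2, k.2.1)

/-- `sw` as a homomorphism -/
def swH : V3 →+ V3 where
  toFun := sw
  map_zero' := rfl
  map_add' _ _ := rfl

theorem sw_inj : Function.Injective sw := by
  intro a b h
  simp only [sw, Prod.mk.injEq] at h
  exact Prod.ext h.1 (Prod.ext h.2.2 h.2.1)

private theorem clss_cr (a b : V3) : cr (sw a) (sw b) = - sw (cr a b) := by
  simp only [cr, sw, Prod.neg_mk, Prod.mk.injEq]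
  refine ⟨by ring, by ring, by ring⟩

private theorem clss_dt (a b : V3) : dt (sw a) (sw b) = dt a b := by
  simp only [dt, sw]
  ring

private theorem clss_mem {Λ : AddSubgroup V3} {k : V3} (hk : k ∈ Λ.map swH) :
    ∃ l ∈ Λ, k = sw l := by
  obtain ⟨l, hl, rfl⟩ := AddSubgroup.mem_map.mp hk
  exact ⟨l, hl, rfl⟩

private theorem clss_ne {l : V3} (h : sw l ≠ 0) : l ≠ 0 := by
  rintro rfl
  exact h rfl

theorem cls_swap (Δ e I Q : ℝ) (g0 : V3) (N1 N2 N3 : ℝ) (Λ : AddSubgroup V3) (S : Finset V3)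
    (h : Cls Δ e I Q g0 N1 N2 N3 Λ S) :
    Cls Δ e I Q (sw g0) N1 N3 N2 (Λ.map swH) (S.image sw) := by
  refine ⟨?_, ?_, ?_, ?_, ?_, ?_⟩
  · intro g hg
    obtain ⟨g', hg', rfl⟩ := Finset.mem_image.mp hg
    obtain ⟨k, hk, h1, h2, h3⟩ := h.mem g' hg'
    refine ⟨swH (-k), AddSubgroup.mem_map_of_mem swH (Λ.neg_mem hk), ?_, ?_, ?_⟩
    · rw [clss_cr]
      change Δ * (((-k.1 : ℤ)) : ℝ) = e * (((-(cr g0 g').1 : ℤ)) : ℝ)
      push_cast
      linarith
    · rw [clss_cr]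
      change Δ * (((-k.2.2 : ℤ)) : ℝ) = e * (((-(cr g0 g').2.2 : ℤ)) : ℝ)
      push_cast
      linarith
    · rw [clss_cr]
      change Δ * (((-k.2.1 : ℤ)) : ℝ) = e * (((-(cr g0 g').2.1 : ℤ)) : ℝ)
      push_cast
      linarith
  · intro k hk
    obtain ⟨l, hl, rfl⟩ := clss_mem hk
    rw [clss_dt]
    exact h.orth l hl
  · intro k hk hne
    obtain ⟨l, hl, rfl⟩ := clss_mem hk
    exact h.lb3 l hl (clss_ne hne)
  · intro k hk hne
    obtain ⟨l, hl, rfl⟩ := clss_mem hk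
    exact h.lb2 l hl (clss_ne hne)
  · intro k hk k' hk'
    obtain ⟨l, hl, rfl⟩ := clss_mem hk
    obtain ⟨l', hl', rfl⟩ := clss_mem hk'
    obtain ⟨n, h1, h2⟩ := h.det l hl l' hl'
    refine ⟨-n, ?_, ?_⟩
    · rw [clss_cr]
      change (((-(cr l l').2.2 : ℤ)) : ℝ) = ((-n : ℤ) : ℝ) * (I * ((g0.2.2 : ℤ) : ℝ))
      push_cast
      linarith
    · rw [clss_cr]
      change (((-(cr l l').2.1 : ℤ)) : ℝ) = ((-n : ℤ) : ℝ) * (I * ((g0.2.1 : ℤ) : ℝ))
      push_cast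
      linarith
  · intro g hg g' hg' he
    obtain ⟨f, hf, rfl⟩ := Finset.mem_image.mp hg
    obtain ⟨f', hf', rfl⟩ := Finset.mem_image.mp hg'
    rw [clss_cr, clss_cr, neg_inj] at he
    obtain ⟨n, hn⟩ := h.fib f hf f' hf' (sw_inj he)
    refine ⟨n, ?_⟩
    rw [hn]
    change swH (f + n • g0) = swH f + n • swH g0
    rw [map_add, map_zsmul]

end Pool.Agent.PPR
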