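import Pool.Agent.PPR.RatR

/-!
# PPR/CrC: the cross product of the pair `1, 2`

PROOF.  Write `Δ = y1 y2 y3 - p ^ 3`; `g2, g2' ≠ 0`.  `m3` gives `y3 g1 = (N3 Δ + p g3 ^ 2) / g2`, and the same with dashes, so
`y3 (g1 g2' - g2 g1') = Δ (N3 g2' / g2 - N3' g2 / g2') + p (g3 ^ 2 g2' / g2 - g3' ^ 2 g2 / g2')` and the last bracket is
`(g3 g2' - g2 g3') (g3 g2' + g2 g3') / (g2 g2')`.
`|g2 / g2'|, |g2' / g2| ≤ 6` (`u2`, `l2`), `N3, N3' ≤ 2 r3 ^ 2`: the first term is at most `24 r3 ^ 2 |Δ|`.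
`|(g3 g2' + g2 g3') / (g2 g2')| ≤ |g3 / g2| + |g3' / g2'| ≤ 12 r3 / r2`; with `ratR`
the second term is at most `6 * 10 ^ 7 r2 r3 |Δ| * 12 r3 / r2 = 72 * 10 ^ 7 r3 ^ 2 |Δ|`.
-/

set_option autoImplicit false

namespace Pool.Agent.PPR

variable {r1 r2 r3 t p y1 y2 y3 g1 g2 g3 N1 N2 N3 g1' g2' g3' N1' N2' N3' : ℝ}

theorem crC (h : Sh r1 r2 r3 t p y1 y2 y3 g1 g2 g3 N1 N2 N3)
    (h' : Sh r1 r2 r3 t p y1 y2 y3 g1' g2' g3' N1' N2' N3') (hp : p ≠ 0) (hy2 : y2 ≠ 0) :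
    |y3| * |g1 * g2' - g2 * g1'| ≤ 10 ^ 9 * (r3 ^ 2 * |y1 * y2 * y3 - p ^ 3|) := by
  have hr := ratR h h' hp hy2
  have m3 := h.m3
  have m3' := h'.m3
  obtain ⟨Δ, hΔ⟩ : ∃ Δ : ℝ, Δ = y1 * y2 * y3 - p ^ 3 := ⟨_, rfl⟩
  rw [← hΔ] at hr m3 m3' ⊢
  have hr1 := h.r1p
  have hr2 := h.r2p
  have hr3 := h.r3p
  have ht := h.tp
  have a2 : 0 < r2 * t := mul_pos hr2 ht
  have hg2 : 0 < |g2| := by linarith [h.l2]
  have hg2' : 0 < |g2'| := by linarith [h'.l2]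
  obtain ⟨P, hP⟩ : ∃ P : ℝ, P = |g2| * |g2'| := ⟨_, rfl⟩
  have hP0 : 0 < P := by
    rw [hP]
    exact mul_pos hg2 hg2'
  have hN3 : |N3| ≤ 2 * r3 ^ 2 := by
    rw [abs_of_nonneg (le_trans (by positivity) h.n3)]
    exact h.n3'
  have hN3' : |N3'| ≤ 2 * r3 ^ 2 := by
    rw [abs_of_nonneg (le_trans (by positivity) h'.n3)]
    exact h'.n3'
  have id1 : y3 * (g1 * g2' - g2 * g1') * (g2 * g2') =
      Δ * (N3 * g2' ^ 2 - N3' * g2 ^ 2) -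
        p * (g2 * g3' - g3 * g2') * (g3 * g2' + g3' * g2) := by
    linear_combination (-g2' ^ 2) * m3 + g2 ^ 2 * m3'
  -- the first term
  have q1 : |g2'| ^ 2 ≤ 6 * P := by
    rw [hP]
    have h1 : |g2'| ≤ 6 * |g2| := by linarith [h'.u2, h.l2]
    nlinarith
  have q2 : |g2| ^ 2 ≤ 6 * P := by
    rw [hP]
    have h1 : |g2| ≤ 6 * |g2'| := by linarith [h.u2, h'.l2]
    nlinarith
  have b1 : |Δ * (N3 * g2' ^ 2 - N3' * g2 ^ 2)| ≤ 24 * (r3 ^ 2 * |Δ|) * P := by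
    rw [abs_mul]
    have h1 : |N3 * g2' ^ 2 - N3' * g2 ^ 2| ≤ |N3| * |g2'| ^ 2 + |N3'| * |g2| ^ 2 := by
      refine (abs_sub _ _).trans ?_
      rw [abs_mul, abs_mul, abs_pow, abs_pow]
    have h2 : |N3| * |g2'| ^ 2 ≤ (2 * r3 ^ 2) * (6 * P) :=
      mul_le_mul hN3 q1 (by positivity) (by positivity)
    have h3 : |N3'| * |g2| ^ 2 ≤ (2 * r3 ^ 2) * (6 * P) :=
      mul_le_mul hN3' q2 (by positivity) (by positivity)
    calc |Δ| * |N3 * g2' ^ 2 - N3' * g2 ^ 2| ≤ |Δ| * ((2 * r3 ^ 2) * (6 * P) +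
          (2 * r3 ^ 2) * (6 * P)) :=
          mul_le_mul_of_nonneg_left (by linarith) (abs_nonneg _)
      _ = 24 * (r3 ^ 2 * |Δ|) * P := by ring
  -- the second term
  have c1 : r2 * (|g3| * |g2'|) ≤ 6 * r3 * P := by
    have h1 : r2 * |g3| ≤ 6 * r3 * |g2| := by
      have h2 := mul_le_mul_of_nonneg_left h.u3 hr2.le
      have h3 := mul_le_mul_of_nonneg_left h.l2 hr3.le
      nlinarith
    rw [hP]
    nlinarith [mul_le_mul_of_nonneg_right h1 hg2'.le]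
  have c2 : r2 * (|g3'| * |g2|) ≤ 6 * r3 * P := by
    have h1 : r2 * |g3'| ≤ 6 * r3 * |g2'| := by
      have h2 := mul_le_mul_of_nonneg_left h'.u3 hr2.le
      have h3 := mul_le_mul_of_nonneg_left h'.l2 hr3.le
      nlinarith
    rw [hP]
    nlinarith [mul_le_mul_of_nonneg_right h1 hg2.le]
  have c3 : r2 * |g3 * g2' + g3' * g2| ≤ 12 * r3 * P := by
    have h1 : |g3 * g2' + g3' * g2| ≤ |g3| * |g2'| + |g3'| * |g2| := by
      refine (abs_add_le _ _).trans ?_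
      rw [abs_mul, abs_mul]
    have h2 := mul_le_mul_of_nonneg_left h1 hr2.le
    linarith
  have b2 : |p * (g2 * g3' - g3 * g2') * (g3 * g2' + g3' * g2)| ≤
      72 * 10 ^ 7 * (r3 ^ 2 * |Δ|) * P := by
    rw [abs_mul, abs_mul]
    calc |p| * |g2 * g3' - g3 * g2'| * |g3 * g2' + g3' * g2| ≤
          6 * 10 ^ 7 * (r2 * r3 * |Δ|) * |g3 * g2' + g3' * g2| :=
          mul_le_mul_of_nonneg_right hr (abs_nonneg _)
      _ = 6 * 10 ^ 7 * (r3 * |Δ|) * (r2 * |g3 * g2' + g3' * g2|) := by ring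
      _ ≤ 6 * 10 ^ 7 * (r3 * |Δ|) * (12 * r3 * P) :=
          mul_le_mul_of_nonneg_left c3 (by positivity)
      _ = 72 * 10 ^ 7 * (r3 ^ 2 * |Δ|) * P := by ring
  have id2 : |y3| * |g1 * g2' - g2 * g1'| * P =
      |Δ * (N3 * g2' ^ 2 - N3' * g2 ^ 2) -
        p * (g2 * g3' - g3 * g2') * (g3 * g2' + g3' * g2)| := by
    rw [← id1, abs_mul, abs_mul, abs_mul, hP]
  have b3 := abs_sub (Δ * (N3 * g2' ^ 2 - N3' * g2 ^ 2))
    (p * (g2 * g3' - g3 * g2') * (g3 * g2' + g3' * g2))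
  rw [← id2] at b3
  have hD0 : 0 ≤ r3 ^ 2 * |Δ| * P := by positivity
  have b4 : |y3| * |g1 * g2' - g2 * g1'| * P ≤ 10 ^ 9 * (r3 ^ 2 * |Δ|) * P := by
    nlinarith
  exact le_of_mul_le_mul_right b4 hP0

end Pool.Agent.PPR
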