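import Pool.Agent.PPR.ShA
import Pool.Agent.PPR.CrC
import Pool.Agent.PPR.Clf
import Pool.Agent.PPR.ClsS

/-!
# PPR/Clm: the class bound with dyadic sizes
-/

set_option autoImplicit false

namespace Pool.Agent.PPR

open Pool.Agent.SMQ

private theorem Clm_mm {t ph Dh : ℝ} (ht : 0 < t) (hp : 0 < ph) (hD : 0 < Dh) : 0 < mm t ph Dh := by
  unfold mm
  exact lt_min (by positivity) (by positivity)

private theorem Clm_Lc {U t r yh Dh : ℝ} (hU : 0 < U) (ht : 0 < t) (hr : 0 < r) (hy : 0 < yh)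
    (hD : 0 < Dh) : 0 < Lc U t r yh Dh := by
  unfold Lc
  exact lt_min (by positivity) (by positivity)

private theorem Clm_num {r1 r2 r3 t Q Dh e I m L D : ℝ} (h1 : 0 < r1) (h2 : 0 < r2) (h3 : 0 < r3)
    (ht : 0 < t) (hQ : 0 < Q) (hDh : 0 < Dh) (he : 0 < e) (hI : 0 < I) (hm : 0 < m) (hL : 0 < L)
    (hD : Dh ≤ |D|) :
    25 * (1 + 8 * (e * (r1 * (12 * 10 ^ 7 * (r2 * r3 * m)) + r3 * (2 * 10 ^ 9 * (L / r3))) /
        (|D| * √Q * t)) +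
      24 * (e ^ 2 / I * ((12 * 10 ^ 7 * (r2 * r3 * m)) * (2 * 10 ^ 9 * (L / r3))) /
        (D ^ 2 * (r2 * t)))) ≤
    10 ^ 21 * (1 + e * ((r1 * r2 * r3 * m + L) / (Dh * √Q * t)) +
      e ^ 2 / I * (m * L / (Dh ^ 2 * t))) := by
  have hsQ : 0 < √Q := Real.sqrt_pos.mpr hQ
  have hDa : 0 < |D| := lt_of_lt_of_le hDh hD
  have hD2 : Dh ^ 2 ≤ D ^ 2 := by
    rw [← sq_abs D]
    exact pow_le_pow_left₀ hDh.le hD 2
  have hD20 : 0 < D ^ 2 := lt_of_lt_of_le (by positivity) hD2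
  have e1 : e * (r1 * (12 * 10 ^ 7 * (r2 * r3 * m)) + r3 * (2 * 10 ^ 9 * (L / r3))) /
        (|D| * √Q * t) ≤ 2 * 10 ^ 9 * (e * ((r1 * r2 * r3 * m + L) / (Dh * √Q * t))) := by
    have e2 : e * (r1 * (12 * 10 ^ 7 * (r2 * r3 * m)) + r3 * (2 * 10 ^ 9 * (L / r3))) ≤
        2 * 10 ^ 9 * (e * (r1 * r2 * r3 * m + L)) := by
      have e3 : r3 * (2 * 10 ^ 9 * (L / r3)) = 2 * 10 ^ 9 * L := by field_simp
      rw [e3]
      have e4 : 0 < r1 * r2 * r3 * m := by positivity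
      have e5 : r1 * (12 * 10 ^ 7 * (r2 * r3 * m)) + 2 * 10 ^ 9 * L ≤
          2 * 10 ^ 9 * (r1 * r2 * r3 * m + L) := by nlinarith
      calc e * (r1 * (12 * 10 ^ 7 * (r2 * r3 * m)) + 2 * 10 ^ 9 * L)
          ≤ e * (2 * 10 ^ 9 * (r1 * r2 * r3 * m + L)) := mul_le_mul_of_nonneg_left e5 he.le
        _ = 2 * 10 ^ 9 * (e * (r1 * r2 * r3 * m + L)) := by ring
    calc e * (r1 * (12 * 10 ^ 7 * (r2 * r3 * m)) + r3 * (2 * 10 ^ 9 * (L / r3))) /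
        (|D| * √Q * t) ≤ (2 * 10 ^ 9 * (e * (r1 * r2 * r3 * m + L))) / (Dh * √Q * t) := by
          apply div_le_div₀ (by positivity) e2 (by positivity)
          exact mul_le_mul_of_nonneg_right (mul_le_mul_of_nonneg_right hD hsQ.le) ht.le
      _ = 2 * 10 ^ 9 * (e * ((r1 * r2 * r3 * m + L) / (Dh * √Q * t))) := by ring
  have e6 : e ^ 2 / I * ((12 * 10 ^ 7 * (r2 * r3 * m)) * (2 * 10 ^ 9 * (L / r3))) /
        (D ^ 2 * (r2 * t)) ≤ 24 * 10 ^ 16 * (e ^ 2 / I * (m * L / (Dh ^ 2 * t))) := by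
    have e7 : e ^ 2 / I * ((12 * 10 ^ 7 * (r2 * r3 * m)) * (2 * 10 ^ 9 * (L / r3))) /
        (D ^ 2 * (r2 * t)) = 24 * 10 ^ 16 * (e ^ 2 / I * (m * L / (D ^ 2 * t))) := by
      field_simp
      ring
    rw [e7]
    apply mul_le_mul_of_nonneg_left _ (by norm_num)
    apply mul_le_mul_of_nonneg_left _ (by positivity)
    apply div_le_div_of_nonneg_left (by positivity) (by positivity)
    exact mul_le_mul_of_nonneg_right hD2 ht.le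
  have p1 : 0 ≤ e * ((r1 * r2 * r3 * m + L) / (Dh * √Q * t)) := by positivity
  have p2 : 0 ≤ e ^ 2 / I * (m * L / (Dh ^ 2 * t)) := by positivity
  linarith

theorem clm2 (r1 r2 r3 t Q ph y2h y3h Dh e I : ℝ) (p : ℤ) (y : V3) (hp : Dy ph p)
    (h2 : Dy y2h y.2.1) (h3 : Dy y3h y.2.2) (hD : Dy Dh (De p y)) (he : 0 < e) (hI : 0 < I)
    (hQ : 0 < Q) (g0 : V3) (N1 N2 N3 : ℝ)
    (h0 : Sh r1 r2 r3 t p y.1 y.2.1 y.2.2 g0.1 g0.2.1 g0.2.2 N1 N2 N3) (Λ : AddSubgroup V3)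
    (S : Finset V3) (hc : Cls (De p y) e I Q g0 N1 N2 N3 Λ S)
    (hS : ∀ g ∈ S, In r1 r2 r3 t p y.1 y.2.1 y.2.2 g) :
    (S.card : ℝ) ≤ 10 ^ 21 * (1 + e * ((r1 * r2 * r3 * mm t ph Dh + Lc (r1 * r2 * r3) t r3 y3h Dh) /
      (Dh * √Q * t)) + e ^ 2 / I * (mm t ph Dh * Lc (r1 * r2 * r3) t r3 y3h Dh / (Dh ^ 2 * t))) := by
  obtain ⟨hp0, hp1, hp2⟩ := hp
  obtain ⟨hy0, hy1, -⟩ := h2
  obtain ⟨hz0, hz1, -⟩ := h3
  obtain ⟨hD0, hD1, hD2⟩ := hD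
  have q1 := h0.r1p
  have q2 := h0.r2p
  have q3 := h0.r3p
  have qt := h0.tp
  have hU : 0 < r1 * r2 * r3 := by positivity
  obtain ⟨m, hm⟩ : ∃ m : ℝ, m = mm t ph Dh := ⟨_, rfl⟩
  obtain ⟨L, hL⟩ : ∃ L : ℝ, L = Lc (r1 * r2 * r3) t r3 y3h Dh := ⟨_, rfl⟩
  have hm0 : 0 < m := by rw [hm]; exact Clm_mm qt hp0 hD0
  have hL0 : 0 < L := by rw [hL]; exact Clm_Lc hU qt q3 hz0 hD0
  rw [← hm, ← hL]
  have hpne : ((p : ℤ) : ℝ) ≠ 0 := by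
    intro h
    rw [h, abs_zero] at hp1
    linarith
  have hyne : ((y.2.1 : ℤ) : ℝ) ≠ 0 := by
    intro h
    rw [h, abs_zero] at hy1
    linarith
  have hDne : ((De p y : ℤ) : ℝ) ≠ 0 := by
    intro h
    rw [h, abs_zero] at hD1
    linarith
  have hDe : ((y.1 : ℤ) : ℝ) * ((y.2.1 : ℤ) : ℝ) * ((y.2.2 : ℤ) : ℝ) - ((p : ℤ) : ℝ) ^ 3 =
      ((De p y : ℤ) : ℝ) := by
    unfold De
    push_cast
    ring
  have c23 : ∀ g ∈ S, |((cr g0 g).1 : ℝ)| ≤ 12 * 10 ^ 7 * (r2 * r3 * m) := by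
    intro g hg
    obtain ⟨M1, M2, M3, hg'⟩ := hS g hg
    have e0 : ((cr g0 g).1 : ℝ) = (g0.2.1 : ℝ) * (g.2.2 : ℝ) - (g0.2.2 : ℝ) * (g.2.1 : ℝ) := by
      unfold cr
      push_cast
      ring
    have e1 := (tri_abs h0 hg').1
    have e2 := ratR h0 hg' hpne hyne
    rw [hDe] at e2
    rw [← e0] at e1 e2
    obtain ⟨x, hx⟩ : ∃ x : ℝ, x = |((cr g0 g).1 : ℝ)| := ⟨_, rfl⟩
    rw [← hx] at e1 e2 ⊢
    have hx0 : 0 ≤ x := by rw [hx]; exact abs_nonneg _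
    have e3 : ph * x ≤ 12 * 10 ^ 7 * (r2 * r3 * Dh) := by
      have e4 : ph * x ≤ |((p : ℤ) : ℝ)| * x := mul_le_mul_of_nonneg_right hp1 hx0
      have e5 : r2 * r3 * |((De p y : ℤ) : ℝ)| ≤ r2 * r3 * (2 * Dh) :=
        mul_le_mul_of_nonneg_left hD2 (by positivity)
      have e6 : (6 : ℝ) * 10 ^ 7 * (r2 * r3 * |((De p y : ℤ) : ℝ)|) ≤
          6 * 10 ^ 7 * (r2 * r3 * (2 * Dh)) := mul_le_mul_of_nonneg_left e5 (by norm_num)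
      have e7 : (6 : ℝ) * 10 ^ 7 * (r2 * r3 * (2 * Dh)) = 12 * 10 ^ 7 * (r2 * r3 * Dh) := by ring
      linarith
    have e8 : x / (12 * 10 ^ 7 * (r2 * r3)) ≤ m := by
      rw [hm]
      unfold mm
      apply le_min
      · rw [div_le_iff₀ (by positivity)]
        have e9 : 0 ≤ r2 * r3 * t ^ 2 := by positivity
        nlinarith
      · rw [div_le_div_iff₀ (by positivity) hp0]
        nlinarith
    rw [div_le_iff₀ (by positivity)] at e8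
    linarith
  have c12 : ∀ g ∈ S, |((cr g0 g).2.2 : ℝ)| ≤ 2 * 10 ^ 9 * (L / r3) := by
    intro g hg
    obtain ⟨M1, M2, M3, hg'⟩ := hS g hg
    have e0 : ((cr g0 g).2.2 : ℝ) = (g0.1 : ℝ) * (g.2.1 : ℝ) - (g0.2.1 : ℝ) * (g.1 : ℝ) := by
      unfold cr
      push_cast
      ring
    have e1 := (tri_abs h0 hg').2
    have e2 := crC h0 hg' hpne hyne
    rw [hDe] at e2
    rw [← e0] at e1 e2
    obtain ⟨x, hx⟩ : ∃ x : ℝ, x = |((cr g0 g).2.2 : ℝ)| := ⟨_, rfl⟩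
    rw [← hx] at e1 e2 ⊢
    have hx0 : 0 ≤ x := by rw [hx]; exact abs_nonneg _
    have e3 : y3h * x ≤ 2 * 10 ^ 9 * (r3 ^ 2 * Dh) := by
      have e4 : y3h * x ≤ |((y.2.2 : ℤ) : ℝ)| * x := mul_le_mul_of_nonneg_right hz1 hx0
      have e5 : r3 ^ 2 * |((De p y : ℤ) : ℝ)| ≤ r3 ^ 2 * (2 * Dh) :=
        mul_le_mul_of_nonneg_left hD2 (by positivity)
      have e6 : (10 : ℝ) ^ 9 * (r3 ^ 2 * |((De p y : ℤ) : ℝ)|) ≤
          10 ^ 9 * (r3 ^ 2 * (2 * Dh)) := mul_le_mul_of_nonneg_left e5 (by norm_num)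
      have e7 : (10 : ℝ) ^ 9 * (r3 ^ 2 * (2 * Dh)) = 2 * 10 ^ 9 * (r3 ^ 2 * Dh) := by ring
      linarith
    have e8 : x * r3 / (2 * 10 ^ 9) ≤ L := by
      rw [hL]
      unfold Lc
      apply le_min
      · rw [div_le_iff₀ (by norm_num)]
        have e9 : x * r3 ≤ 18 * (r1 * r2 * t ^ 2) * r3 := mul_le_mul_of_nonneg_right e1 q3.le
        have e10 : 0 ≤ r1 * r2 * r3 * t ^ 2 := by positivity
        have e11 : 18 * (r1 * r2 * t ^ 2) * r3 = 18 * (r1 * r2 * r3 * t ^ 2) := by ring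
        linarith
      · rw [div_le_div_iff₀ (by norm_num) hz0]
        have e9 : y3h * x * r3 ≤ 2 * 10 ^ 9 * (r3 ^ 2 * Dh) * r3 :=
          mul_le_mul_of_nonneg_right e3 q3.le
        have e10 : x * r3 * y3h = y3h * x * r3 := by ring
        have e11 : 2 * 10 ^ 9 * (r3 ^ 2 * Dh) * r3 = r3 ^ 3 * Dh * (2 * 10 ^ 9) := by ring
        rw [e10, ← e11]
        exact e9
    rw [div_le_iff₀ (by norm_num)] at e8
    have e12 : 2 * 10 ^ 9 * (L / r3) = L * (2 * 10 ^ 9) / r3 := by ring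
    rw [e12, le_div_iff₀ q3]
    exact e8
  have key := clf ((De p y : ℤ) : ℝ) e I Q r1 r2 r3 t (12 * 10 ^ 7 * (r2 * r3 * m))
    (2 * 10 ^ 9 * (L / r3)) hDne he hI hQ q1 q2 q3 qt (by positivity) (by positivity) g0 N1 N2 N3
    h0.n1' h0.n2' h0.n3' h0.l2 Λ S hc
    (fun g hg => by
      obtain ⟨M1, M2, M3, hg'⟩ := hS g hg
      exact hg'.u2) c23 c12
  exact key.trans (Clm_num q1 q2 q3 qt hQ hD0 he hI hm0 hL0 hD1)

theorem clm3 (r1 r2 r3 t Q ph y2h y3h Dh e I : ℝ) (p : ℤ) (y : V3) (hp : Dy ph p)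
    (h2 : Dy y2h y.2.1) (h3 : Dy y3h y.2.2) (hD : Dy Dh (De p y)) (he : 0 < e) (hI : 0 < I)
    (hQ : 0 < Q) (g0 : V3) (N1 N2 N3 : ℝ)
    (h0 : Sh r1 r2 r3 t p y.1 y.2.1 y.2.2 g0.1 g0.2.1 g0.2.2 N1 N2 N3) (Λ : AddSubgroup V3)
    (S : Finset V3) (hc : Cls (De p y) e I Q g0 N1 N2 N3 Λ S)
    (hS : ∀ g ∈ S, In r1 r2 r3 t p y.1 y.2.1 y.2.2 g) :
    (S.card : ℝ) ≤ 10 ^ 21 * (1 + e * ((r1 * r2 * r3 * mm t ph Dh + Lc (r1 * r2 * r3) t r2 y2h Dh) /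
      (Dh * √Q * t)) + e ^ 2 / I * (mm t ph Dh * Lc (r1 * r2 * r3) t r2 y2h Dh / (Dh ^ 2 * t))) := by
  have hDe : De p (sw y) = De p y := by
    unfold De sw
    ring
  have hU : r1 * r3 * r2 = r1 * r2 * r3 := by ring
  have hc' := cls_swap _ e I Q g0 N1 N2 N3 Λ S hc
  rw [← hDe] at hc'
  have h := clm2 r1 r3 r2 t Q ph y3h y2h Dh e I p (sw y) hp h3 h2 (by rw [hDe]; exact hD) he hI hQ
    (sw g0) N1 N3 N2 (sh_swap h0) (Λ.map swH) (S.image sw) hc'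
    (by
      intro g hg
      obtain ⟨g', hg', rfl⟩ := Finset.mem_image.mp hg
      obtain ⟨M1, M2, M3, hsh⟩ := hS g' hg'
      exact ⟨M1, M3, M2, sh_swap hsh⟩)
  rw [Finset.card_image_of_injective _ sw_inj, hU] at h
  exact h

theorem clm (r1 r2 r3 t Q ph y2h y3h Dh e I : ℝ) (p : ℤ) (y : V3) (hp : Dy ph p)
    (h2 : Dy y2h y.2.1) (h3 : Dy y3h y.2.2) (hD : Dy Dh (De p y)) (he : 0 < e) (hI : 0 < I)
    (hQ : 0 < Q) (g0 : V3) (N1 N2 N3 : ℝ)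
    (h0 : Sh r1 r2 r3 t p y.1 y.2.1 y.2.2 g0.1 g0.2.1 g0.2.2 N1 N2 N3) (Λ : AddSubgroup V3)
    (S : Finset V3) (hc : Cls (De p y) e I Q g0 N1 N2 N3 Λ S)
    (hS : ∀ g ∈ S, In r1 r2 r3 t p y.1 y.2.1 y.2.2 g) :
    (S.card : ℝ) ≤ 10 ^ 21 * (1 + e * Aa r1 r2 r3 t Q ph y2h y3h Dh +
      e ^ 2 / I * Bb r1 r2 r3 t ph y2h y3h Dh) := by
  have q1 := h0.r1p
  have q2 := h0.r2p
  have q3 := h0.r3p
  have qt := h0.tp
  have hU : 0 < r1 * r2 * r3 := by positivity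
  have hsQ : 0 < √Q := Real.sqrt_pos.mpr hQ
  have hD0 : 0 < Dh := hD.1
  have k2 := clm2 r1 r2 r3 t Q ph y2h y3h Dh e I p y hp h2 h3 hD he hI hQ g0 N1 N2 N3 h0 Λ S hc hS
  have k3 := clm3 r1 r2 r3 t Q ph y2h y3h Dh e I p y hp h2 h3 hD he hI hQ g0 N1 N2 N3 h0 Λ S hc hS
  have hm0 : 0 < mm t ph Dh := Clm_mm qt hp.1 hD0
  have hL2 : 0 < Lc (r1 * r2 * r3) t r2 y2h Dh := Clm_Lc hU qt q2 h2.1 hD0
  have hL3 : 0 < Lc (r1 * r2 * r3) t r3 y3h Dh := Clm_Lc hU qt q3 h3.1 hD0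
  unfold Aa Bb
  generalize mm t ph Dh = m at k2 k3 hm0 ⊢
  generalize Lc (r1 * r2 * r3) t r2 y2h Dh = L2 at k2 k3 hL2 ⊢
  generalize Lc (r1 * r2 * r3) t r3 y3h Dh = L3 at k2 k3 hL3 ⊢
  rcases le_total L3 L2 with hc | hc
  · rw [min_eq_right hc]
    refine k2.trans ?_
    have e1 : (r1 * r2 * r3 * m + L3) / (Dh * √Q * t) ≤
        (r1 * r2 * r3 * m + L2 + L3) / (Dh * √Q * t) :=
      div_le_div_of_nonneg_right (by linarith) (by positivity)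
    have e2 := mul_le_mul_of_nonneg_left e1 he.le
    linarith
  · rw [min_eq_left hc]
    refine k3.trans ?_
    have e1 : (r1 * r2 * r3 * m + L2) / (Dh * √Q * t) ≤
        (r1 * r2 * r3 * m + L2 + L3) / (Dh * √Q * t) :=
      div_le_div_of_nonneg_right (by linarith) (by positivity)
    have e2 := mul_le_mul_of_nonneg_left e1 he.le
    linarith

end Pool.Agent.PPR
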