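import Pool.Agent.PPR.Defs

/-!
# PPR/Geo: geometric sums

PROOF of `geo`.  `C = 1 / (1 - 2 ^ (-ε))`.  If `A` is empty the bound is clear.  Otherwise let `n = A.max'`; every `a ∈ A` is `n - i` with
`0 ≤ i ≤ n`, `(c 2 ^ a) ^ ε = (c 2 ^ n) ^ ε (2 ^ (-ε)) ^ i`, so the sum is at most `(c 2 ^ n) ^ ε ∑_i (2 ^ (-ε)) ^ i ≤ C (c 2 ^ n) ^ ε ≤ C B ^ ε`.
-/

set_option autoImplicit false

namespace Pool.Agent.PPR

theorem geo (ε : ℝ) (hε : 0 < ε) : ∃ C : ℝ, 1 ≤ C ∧ ∀ (c B : ℝ), 0 < c → 0 < B → ∀ A : Finset ℕ,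
    (∀ a ∈ A, c * 2 ^ a ≤ B) → ∑ a ∈ A, (c * 2 ^ a) ^ ε ≤ C * B ^ ε := by
  set r : ℝ := (2 : ℝ) ^ (-ε) with hr
  have hr0 : 0 < r := Real.rpow_pos_of_pos (by norm_num) _
  have hr1 : r < 1 := Real.rpow_lt_one_of_one_lt_of_neg (by norm_num) (by linarith)
  have hr2 : r * (2 : ℝ) ^ ε = 1 := by
    rw [hr, ← Real.rpow_add (by norm_num)]
    simp
  refine ⟨(1 - r)⁻¹, one_le_inv_iff₀.2 ⟨by linarith, by linarith⟩, ?_⟩
  intro c B hc hB A hA
  have hi0 : 0 ≤ (1 - r)⁻¹ := inv_nonneg.2 (by linarith)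
  rcases A.eq_empty_or_nonempty with rfl | hne
  · simpa using mul_nonneg hi0 (Real.rpow_nonneg hB.le ε)
  set n : ℕ := A.max' hne with hn
  have hle : ∀ a ∈ A, a ≤ n := fun a ha => A.le_max' a ha
  have hcn : 0 < c * 2 ^ n := by positivity
  have h1 : ∀ a ∈ A, (c * 2 ^ a) ^ ε = (c * 2 ^ n) ^ ε * r ^ (n - a) := by
    intro a ha
    have h2 : (c * 2 ^ n : ℝ) = c * 2 ^ a * 2 ^ (n - a) := by
      rw [mul_assoc, ← pow_add, Nat.add_sub_cancel' (hle a ha)]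
    have hca : (0 : ℝ) ≤ c * 2 ^ a := by positivity
    have h3 : ((2 : ℝ) ^ (n - a)) ^ ε = ((2 : ℝ) ^ ε) ^ (n - a) := by
      rw [← Real.rpow_natCast, ← Real.rpow_natCast, ← Real.rpow_mul (by norm_num),
        ← Real.rpow_mul (by norm_num), mul_comm]
    rw [h2, Real.mul_rpow hca (by positivity), h3, mul_assoc, ← mul_pow,
      mul_comm ((2 : ℝ) ^ ε) r, hr2, one_pow, mul_one]
  have h4 : ∑ a ∈ A, r ^ (n - a) ≤ (1 - r)⁻¹ := by
    calc ∑ a ∈ A, r ^ (n - a) ≤ ∑ a ∈ Finset.range (n + 1), r ^ (n - a) :=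
          Finset.sum_le_sum_of_subset_of_nonneg
            (fun a ha => Finset.mem_range.2 (Nat.lt_succ_of_le (hle a ha)))
            (fun _ _ _ => pow_nonneg hr0.le _)
      _ = ∑ i ∈ Finset.range (n + 1), r ^ i := by
          rw [← Finset.sum_range_reflect]
          refine Finset.sum_congr rfl fun i hi => ?_
          have := Finset.mem_range.1 hi
          congr 1
          omega
      _ ≤ ∑' i, r ^ i :=
          (summable_geometric_of_lt_one hr0.le hr1).sum_le_tsum _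
            (fun _ _ => pow_nonneg hr0.le _)
      _ = (1 - r)⁻¹ := tsum_geometric_of_lt_one hr0.le hr1
  rw [Finset.sum_congr rfl h1, ← Finset.mul_sum, mul_comm]
  exact mul_le_mul h4 (Real.rpow_le_rpow hcn.le (hA n (A.max'_mem hne)) hε.le)
    (Real.rpow_nonneg hcn.le ε) hi0

end Pool.Agent.PPR
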