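import Pool.Agent.PPR.Defs

/-!
# PPR/RgD: the normalised sizes of a point are in the range

Notation: `U = r1 r2 r3`, `P = U / √d`, `Δ = y1 y2 y3 - p ^ 3`; `d ≤ D`.

PROOF.  All parameters are positive (`Dy`).
`b_i`: `d y_i ^ 2 ≤ D y_i ^ 2 ≤ 4 N_i ^ 3 ≤ 32 r_i ^ 6`, so `y_ih √d / r_i ^ 3 ≤ |y_i| √d / r_i ^ 3 ≤ √32 ≤ 6`.
`bk`: `d p ^ 2 ≤ 4 N1 N2 N3 ≤ 32 U ^ 2`: the same, `ph ≤ |p| ≤ 6 P`.
`bm`: `Dh ≤ |Δ| ≤ |y1 y2 y3| + |p| ^ 3`; `|y1 y2 y3| √d ^ 3 / U ^ 3 ≤ √32 ^ 3` and `(|p| √d / U) ^ 3 ≤ √32 ^ 3`, `2 √32 ^ 3 = 362.04 ≤ 512`.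
`bs`: `t ≤ 2 |g2| / r2` and `d g2 ^ 2 ≤ 4 N2 ^ 2 N3 N1 ≤ 64 r2 ^ 2 U ^ 2`, so `|g2| ≤ 8 r2 P`, `t ≤ 16 P`.
`hk`: `ph ^ 3 ≤ |p| ^ 3 ≤ |y1 y2 y3| + |Δ| ≤ 8 y1h y2h y3h + 2 Dh`; divide by `P ^ 3`
(`y1h y2h y3h = η1 η2 η3 P ^ 3`, because `r1 ^ 3 r2 ^ 3 r3 ^ 3 / √d ^ 3 = P ^ 3`).
`hs`: `m1`: `r1 ^ 2 Dh ≤ N1 |Δ| ≤ |y1| |g2 g3| + |p| g1 ^ 2 ≤ 18 t ^ 2 (y1h r2 r3 + ph r1 ^ 2)`; divide by `r1 ^ 2 P ^ 3`:
`μ ≤ 18 s ^ 2 (η1 + k) ≤ 18 * 16 s ^ 2` (`y1h r2 r3 / (r1 ^ 2 P) = η1`, `ph / P = k`).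
-/

set_option autoImplicit false

namespace Pool.Agent.PPR

private theorem RgD_sq {a b : ℝ} (hb : 0 ≤ b) (h : a ^ 2 ≤ b ^ 2) : a ≤ b :=
  le_trans (le_abs_self a) (abs_le_of_sq_le_sq h hb)

private theorem RgD_y {r N y d D : ℝ} (hr : 0 < r) (h0 : r ^ 2 ≤ N) (hN : N ≤ 2 * r ^ 2) (hd : 0 < d)
    (hdD : d ≤ D) (h : D * y ^ 2 ≤ 4 * N ^ 3) : |y| * √d ≤ 6 * r ^ 3 := by
  refine RgD_sq (by positivity) ?_
  have hN0 : 0 ≤ N := le_trans (by positivity) h0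
  have h1 : N ^ 3 ≤ (2 * r ^ 2) ^ 3 := pow_le_pow_left₀ hN0 hN 3
  have h2 : d * y ^ 2 ≤ D * y ^ 2 := mul_le_mul_of_nonneg_right hdD (sq_nonneg y)
  rw [mul_pow, Real.sq_sqrt hd.le, sq_abs]
  nlinarith [pow_pos hr 6]

private theorem RgD_p {r1 r2 r3 N1 N2 N3 p d D : ℝ} (hr1 : 0 < r1) (hr2 : 0 < r2) (hr3 : 0 < r3)
    (h1 : r1 ^ 2 ≤ N1) (h1' : N1 ≤ 2 * r1 ^ 2) (h2 : r2 ^ 2 ≤ N2) (h2' : N2 ≤ 2 * r2 ^ 2)
    (h3 : r3 ^ 2 ≤ N3) (h3' : N3 ≤ 2 * r3 ^ 2) (hd : 0 < d)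
    (hdD : d ≤ D) (h : D * p ^ 2 ≤ 4 * (N1 * N2 * N3)) : |p| * √d ≤ 6 * (r1 * r2 * r3) := by
  refine RgD_sq (by positivity) ?_
  have g1 : 0 ≤ N1 := le_trans (by positivity) h1
  have g2 : 0 ≤ N2 := le_trans (by positivity) h2
  have g3 : 0 ≤ N3 := le_trans (by positivity) h3
  have e1 : N1 * N2 * N3 ≤ (2 * r1 ^ 2) * (2 * r2 ^ 2) * (2 * r3 ^ 2) :=
    mul_le_mul (mul_le_mul h1' h2' g2 (by positivity)) h3' g3 (by positivity)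
  have e2 : d * p ^ 2 ≤ D * p ^ 2 := mul_le_mul_of_nonneg_right hdD (sq_nonneg p)
  have e3 : 0 ≤ r1 ^ 2 * r2 ^ 2 * r3 ^ 2 := by positivity
  rw [mul_pow, Real.sq_sqrt hd.le, sq_abs]
  nlinarith

private theorem RgD_g {r1 r2 r3 N1 N2 N3 g d D : ℝ} (hr1 : 0 < r1) (hr2 : 0 < r2) (hr3 : 0 < r3)
    (h1 : r1 ^ 2 ≤ N1) (h1' : N1 ≤ 2 * r1 ^ 2) (h2 : r2 ^ 2 ≤ N2) (h2' : N2 ≤ 2 * r2 ^ 2)
    (h3 : r3 ^ 2 ≤ N3) (h3' : N3 ≤ 2 * r3 ^ 2) (hd : 0 < d)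
    (hdD : d ≤ D) (h : D * g ^ 2 ≤ 4 * (N2 ^ 2 * N3 * N1)) : |g| * √d ≤ 8 * (r2 * (r1 * r2 * r3)) := by
  refine RgD_sq (by positivity) ?_
  have g1 : 0 ≤ N1 := le_trans (by positivity) h1
  have g2 : 0 ≤ N2 := le_trans (by positivity) h2
  have g3 : 0 ≤ N3 := le_trans (by positivity) h3
  have e0 : N2 ^ 2 ≤ (2 * r2 ^ 2) ^ 2 := pow_le_pow_left₀ g2 h2' 2
  have e1 : N2 ^ 2 * N3 * N1 ≤ (2 * r2 ^ 2) ^ 2 * (2 * r3 ^ 2) * (2 * r1 ^ 2) :=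
    mul_le_mul (mul_le_mul e0 h3' g3 (by positivity)) h1' g1 (by positivity)
  have e2 : d * g ^ 2 ≤ D * g ^ 2 := mul_le_mul_of_nonneg_right hdD (sq_nonneg g)
  rw [mul_pow, Real.sq_sqrt hd.le, sq_abs]
  nlinarith

theorem rg_of (r1 r2 r3 t p y1 y2 y3 g1 g2 g3 N1 N2 N3 : ℝ)
    (h : Sh r1 r2 r3 t p y1 y2 y3 g1 g2 g3 N1 N2 N3) (d D ph y1h y2h y3h Dh : ℝ) (hd : 0 < d)
    (hdD : d ≤ D) (hp : Dy ph p) (h1 : Dy y1h y1) (h2 : Dy y2h y2) (h3 : Dy y3h y3)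
    (hD : Dy Dh (y1 * y2 * y3 - p ^ 3)) (sp : D * p ^ 2 ≤ 4 * (N1 * N2 * N3))
    (s1 : D * y1 ^ 2 ≤ 4 * N1 ^ 3) (s2 : D * y2 ^ 2 ≤ 4 * N2 ^ 3) (s3 : D * y3 ^ 2 ≤ 4 * N3 ^ 3)
    (sg : D * g2 ^ 2 ≤ 4 * (N2 ^ 2 * N3 * N1)) :
    Rg (y1h * √d / r1 ^ 3) (y2h * √d / r2 ^ 3) (y3h * √d / r3 ^ 3) (ph * √d / (r1 * r2 * r3))
      (Dh * √d ^ 3 / (r1 * r2 * r3) ^ 3) (t * √d / (r1 * r2 * r3)) := by
  have hw : 0 < √d := Real.sqrt_pos.2 hd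
  have hr1 := h.r1p
  have hr2 := h.r2p
  have hr3 := h.r3p
  have ht := h.tp
  obtain ⟨p0, pl, pu⟩ := hp
  obtain ⟨y10, y1l, y1u⟩ := h1
  obtain ⟨y20, y2l, y2u⟩ := h2
  obtain ⟨y30, y3l, y3u⟩ := h3
  obtain ⟨D0, Dl, Du⟩ := hD
  have b1 := RgD_y hr1 h.n1 h.n1' hd hdD s1
  have b2 := RgD_y hr2 h.n2 h.n2' hd hdD s2
  have b3 := RgD_y hr3 h.n3 h.n3' hd hdD s3
  have bp := RgD_p hr1 hr2 hr3 h.n1 h.n1' h.n2 h.n2' h.n3 h.n3' hd hdD sp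
  have bg := RgD_g hr1 hr2 hr3 h.n1 h.n1' h.n2 h.n2' h.n3 h.n3' hd hdD sg
  generalize √d = w at *
  have hU : 0 < r1 * r2 * r3 := by positivity
  have c1 : y1h * w ≤ 6 * r1 ^ 3 := (mul_le_mul_of_nonneg_right y1l hw.le).trans b1
  have c2 : y2h * w ≤ 6 * r2 ^ 3 := (mul_le_mul_of_nonneg_right y2l hw.le).trans b2
  have c3 : y3h * w ≤ 6 * r3 ^ 3 := (mul_le_mul_of_nonneg_right y3l hw.le).trans b3
  have cp : ph * w ≤ 6 * (r1 * r2 * r3) := (mul_le_mul_of_nonneg_right pl hw.le).trans bp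
  have hD1 : |y1 * y2 * y3 - p ^ 3| ≤ |y1| * |y2| * |y3| + |p| ^ 3 := by
    have := abs_sub (y1 * y2 * y3) (p ^ 3)
    rwa [abs_mul, abs_mul, abs_pow] at this
  have hD2 : |p| ^ 3 ≤ |y1| * |y2| * |y3| + |y1 * y2 * y3 - p ^ 3| := by
    have := abs_sub (y1 * y2 * y3) (y1 * y2 * y3 - p ^ 3)
    rwa [sub_sub_cancel, abs_mul, abs_mul, abs_pow] at this
  have hprod : (|y1| * w) * (|y2| * w) * (|y3| * w) ≤ (6 * r1 ^ 3) * (6 * r2 ^ 3) * (6 * r3 ^ 3) :=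
    mul_le_mul (mul_le_mul b1 b2 (by positivity) (by positivity)) b3 (by positivity) (by positivity)
  have hp3 : (|p| * w) ^ 3 ≤ (6 * (r1 * r2 * r3)) ^ 3 := pow_le_pow_left₀ (by positivity) bp 3
  have hw3 : 0 < w ^ 3 := by positivity
  refine ⟨by positivity, by positivity, by positivity, by positivity, by positivity, by positivity,
    ?_, ?_, ?_, ?_, ?_, ?_, ?_, ?_⟩
  · rw [div_le_iff₀ (by positivity)]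
    nlinarith [pow_pos hr1 3]
  · rw [div_le_iff₀ (by positivity)]
    nlinarith [pow_pos hr2 3]
  · rw [div_le_iff₀ (by positivity)]
    nlinarith [pow_pos hr3 3]
  · rw [div_le_iff₀ (by positivity)]
    linarith
  · rw [div_le_iff₀ (by positivity)]
    have e1 : Dh * w ^ 3 ≤ (|y1| * |y2| * |y3| + |p| ^ 3) * w ^ 3 :=
      mul_le_mul_of_nonneg_right (Dl.trans hD1) hw3.le
    have e2 : 0 < (r1 * r2 * r3) ^ 3 := by positivity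
    nlinarith
  · rw [div_le_iff₀ (by positivity)]
    have e1 : r2 * t * w ≤ 2 * |g2| * w := mul_le_mul_of_nonneg_right h.l2 hw.le
    have e2 : r2 * (t * w) ≤ r2 * (16 * (r1 * r2 * r3)) := by nlinarith
    exact le_of_mul_le_mul_left e2 hr2
  · have e1 : ph ^ 3 ≤ |p| ^ 3 := pow_le_pow_left₀ p0.le pl 3
    have e2 : |y1| * |y2| * |y3| ≤ (2 * y1h) * (2 * y2h) * (2 * y3h) :=
      mul_le_mul (mul_le_mul y1u y2u (by positivity) (by positivity)) y3u (by positivity)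
        (by positivity)
    have e3 : ph ^ 3 ≤ 8 * (Dh + y1h * y2h * y3h) := by nlinarith
    have e4 : (ph * w / (r1 * r2 * r3)) ^ 3 = ph ^ 3 * (w ^ 3 / (r1 * r2 * r3) ^ 3) := by
      field_simp
    have e5 : 8 * (Dh * w ^ 3 / (r1 * r2 * r3) ^ 3 +
        y1h * w / r1 ^ 3 * (y2h * w / r2 ^ 3) * (y3h * w / r3 ^ 3))
        = 8 * (Dh + y1h * y2h * y3h) * (w ^ 3 / (r1 * r2 * r3) ^ 3) := by
      field_simp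
    rw [e4, e5]
    exact mul_le_mul_of_nonneg_right e3 (by positivity)
  · have e1 : r1 ^ 2 * Dh ≤ N1 * |y1 * y2 * y3 - p ^ 3| :=
      mul_le_mul h.n1 Dl D0.le (le_trans (by positivity) h.n1)
    have hN0 : 0 ≤ N1 := le_trans (by positivity) h.n1
    have e2 : N1 * |y1 * y2 * y3 - p ^ 3| = |y1 * g2 * g3 - p * g1 ^ 2| := by
      rw [← h.m1, abs_mul, abs_of_nonneg hN0]
    have e3 : |y1 * g2 * g3 - p * g1 ^ 2| ≤ |y1| * (|g2| * |g3|) + |p| * |g1| ^ 2 := by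
      have := abs_sub (y1 * g2 * g3) (p * g1 ^ 2)
      rw [abs_mul, abs_mul, abs_mul, abs_pow, mul_assoc |y1|] at this
      exact this
    have e4 : |g2| * |g3| ≤ (3 * (r2 * t)) * (3 * (r3 * t)) :=
      mul_le_mul h.u2 h.u3 (abs_nonneg _) (by positivity)
    have e5 : |g1| ^ 2 ≤ (3 * (r1 * t)) ^ 2 := pow_le_pow_left₀ (abs_nonneg _) h.u1 2
    have e6 : |y1| * (|g2| * |g3|) ≤ |y1| * ((3 * (r2 * t)) * (3 * (r3 * t))) :=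
      mul_le_mul_of_nonneg_left e4 (abs_nonneg _)
    have e7 : |p| * |g1| ^ 2 ≤ |p| * (3 * (r1 * t)) ^ 2 :=
      mul_le_mul_of_nonneg_left e5 (abs_nonneg _)
    have e8 : r1 ^ 2 * Dh ≤ |y1| * ((3 * (r2 * t)) * (3 * (r3 * t))) + |p| * (3 * (r1 * t)) ^ 2 := by
      linarith
    have e9 : r1 ^ 2 * (Dh * w) ≤ r1 ^ 2 * (108 * (r1 * r2 * r3 * t ^ 2)) := by
      have f1 : (r1 ^ 2 * Dh) * w ≤ (|y1| * ((3 * (r2 * t)) * (3 * (r3 * t))) +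
          |p| * (3 * (r1 * t)) ^ 2) * w := mul_le_mul_of_nonneg_right e8 hw.le
      have f2 : (|y1| * w) * (9 * (r2 * r3 * t ^ 2)) ≤ (6 * r1 ^ 3) * (9 * (r2 * r3 * t ^ 2)) :=
        mul_le_mul_of_nonneg_right b1 (by positivity)
      have f3 : (|p| * w) * (9 * (r1 ^ 2 * t ^ 2)) ≤ (6 * (r1 * r2 * r3)) * (9 * (r1 ^ 2 * t ^ 2)) :=
        mul_le_mul_of_nonneg_right bp (by positivity)
      linarith
    have e10 : Dh * w ≤ 108 * (r1 * r2 * r3 * t ^ 2) :=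
      le_of_mul_le_mul_left e9 (by positivity)
    have e11 : Dh * w ^ 3 / (r1 * r2 * r3) ^ 3 = (Dh * w) * (w ^ 2 / (r1 * r2 * r3) ^ 3) := by
      field_simp
    have e12 : 300 * (t * w / (r1 * r2 * r3)) ^ 2
        = (300 * (r1 * r2 * r3 * t ^ 2)) * (w ^ 2 / (r1 * r2 * r3) ^ 3) := by
      field_simp
    rw [e11, e12]
    refine mul_le_mul_of_nonneg_right (e10.trans ?_) (by positivity)
    have : 0 < r1 * r2 * r3 * t ^ 2 := by positivity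
    linarith

end Pool.Agent.PPR
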