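import Pool.Agent.PPR.Defs

/-!
# PPR/ShA: shells

PROOF of `sh_swap`: the fields of `Sh` are symmetric in the indices 2, 3 (after `ring`-rewriting of
`m1, m2, m3`; e.g. `linear_combination`).
PROOF of `sh_of`: `0 < r_i ^ 2 ≤ N_i`, so `√N_i > 0`, `r_i ≤ √N_i ≤ (3 / 2) r_i` (as `2 ≤ 9 / 4`).  Let `x_i = |g_i| / √N_i`.
`x_1 ≤ x_2`, `x_1 ≤ x_3`, `x_2 ≤ x_1 + x_3 ≤ 2 x_3`, `x_3 ≤ x_1 + x_2 ≤ 2 x_2`, `t ≤ max x_2 x_3 < 2 t`.  So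
`x_2, x_3 ≥ t / 2` and `x_1, x_2, x_3 < 2 t`; `|g_i| = x_i √N_i`, so `|g_i| ≤ 2 t (3 / 2) r_i` and
`|g_i| ≥ (t / 2) r_i` for `i = 2, 3`.
PROOF of `tri_abs`: `|g2 g3' - g3 g2'| ≤ |g2| |g3'| + |g3| |g2'| ≤ 2 * 9 r2 r3 t ^ 2`, etc.
-/

set_option autoImplicit false

namespace Pool.Agent.PPR

variable {r1 r2 r3 t p y1 y2 y3 g1 g2 g3 N1 N2 N3 g1' g2' g3' N1' N2' N3' : ℝ}

theorem sh_swap (h : Sh r1 r2 r3 t p y1 y2 y3 g1 g2 g3 N1 N2 N3) :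
    Sh r1 r3 r2 t p y1 y3 y2 g1 g3 g2 N1 N3 N2 where
  r1p := h.r1p
  r2p := h.r3p
  r3p := h.r2p
  tp := h.tp
  n1 := h.n1
  n1' := h.n1'
  n2 := h.n3
  n2' := h.n3'
  n3 := h.n2
  n3' := h.n2'
  m1 := by linear_combination h.m1
  m2 := by linear_combination h.m3
  m3 := by linear_combination h.m2
  u1 := h.u1
  l2 := h.l3
  u2 := h.u3
  l3 := h.l2
  u3 := h.u2

private theorem ShA_sq {r N : ℝ} (rp : 0 < r) (n : r ^ 2 ≤ N) (n' : N ≤ 2 * r ^ 2) :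
    0 < √N ∧ r ≤ √N ∧ √N ≤ 3 / 2 * r := by
  have h1 : r ≤ √N := Real.le_sqrt_of_sq_le n
  refine ⟨lt_of_lt_of_le rp h1, h1, ?_⟩
  rw [Real.sqrt_le_left (by positivity)]
  nlinarith [sq_nonneg r]

private theorem ShA_up {r t g s : ℝ} (tp : 0 < t) (sp : 0 < s) (s1 : s ≤ 3 / 2 * r)
    (h : |g| / s < 2 * t) : |g| ≤ 3 * (r * t) := by
  have h1 : |g| < 2 * t * s := by
    rwa [div_lt_iff₀ sp] at h
  nlinarith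

private theorem ShA_lo {r t g s : ℝ} (tp : 0 < t) (sp : 0 < s) (s1 : r ≤ s)
    (h : t / 2 ≤ |g| / s) : r * t ≤ 2 * |g| := by
  have h1 : t / 2 * s ≤ |g| := by
    rwa [le_div_iff₀ sp] at h
  nlinarith

theorem sh_of (r1p : 0 < r1) (r2p : 0 < r2) (r3p : 0 < r3) (tp : 0 < t)
    (n1 : r1 ^ 2 ≤ N1) (n1' : N1 ≤ 2 * r1 ^ 2) (n2 : r2 ^ 2 ≤ N2) (n2' : N2 ≤ 2 * r2 ^ 2)
    (n3 : r3 ^ 2 ≤ N3) (n3' : N3 ≤ 2 * r3 ^ 2)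
    (m1 : N1 * (y1 * y2 * y3 - p ^ 3) = y1 * g2 * g3 - p * g1 ^ 2)
    (m2 : N2 * (y1 * y2 * y3 - p ^ 3) = y2 * g3 * g1 - p * g2 ^ 2)
    (m3 : N3 * (y1 * y2 * y3 - p ^ 3) = y3 * g1 * g2 - p * g3 ^ 2)
    (a2 : |g2| / √N2 ≤ |g1| / √N1 + |g3| / √N3) (a3 : |g3| / √N3 ≤ |g1| / √N1 + |g2| / √N2)
    (s2 : |g1| / √N1 ≤ |g2| / √N2) (s3 : |g1| / √N1 ≤ |g3| / √N3)
    (ht : t ≤ max (|g2| / √N2) (|g3| / √N3)) (ht' : max (|g2| / √N2) (|g3| / √N3) < 2 * t) :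
    Sh r1 r2 r3 t p y1 y2 y3 g1 g2 g3 N1 N2 N3 := by
  obtain ⟨p1, q1, w1⟩ := ShA_sq r1p n1 n1'
  obtain ⟨p2, q2, w2⟩ := ShA_sq r2p n2 n2'
  obtain ⟨p3, q3, w3⟩ := ShA_sq r3p n3 n3'
  have b2 : |g2| / √N2 < 2 * t := lt_of_le_of_lt (le_max_left _ _) ht'
  have b3 : |g3| / √N3 < 2 * t := lt_of_le_of_lt (le_max_right _ _) ht'
  have c2 : t / 2 ≤ |g2| / √N2 := by
    rcases le_max_iff.mp ht with h | h <;> linarith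
  have c3 : t / 2 ≤ |g3| / √N3 := by
    rcases le_max_iff.mp ht with h | h <;> linarith
  exact
    { r1p := r1p
      r2p := r2p
      r3p := r3p
      tp := tp
      n1 := n1
      n1' := n1'
      n2 := n2
      n2' := n2'
      n3 := n3
      n3' := n3'
      m1 := m1
      m2 := m2
      m3 := m3
      u1 := ShA_up tp p1 w1 (lt_of_le_of_lt s2 b2)
      l2 := ShA_lo tp p2 q2 c2
      u2 := ShA_up tp p2 w2 b2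
      l3 := ShA_lo tp p3 q3 c3
      u3 := ShA_up tp p3 w3 b3 }

private theorem ShA_tri {a b c d r s t : ℝ} (rp : 0 < r) (sp : 0 < s) (tp : 0 < t)
    (ha : |a| ≤ 3 * (r * t)) (hb : |b| ≤ 3 * (s * t)) (hc : |c| ≤ 3 * (s * t))
    (hd : |d| ≤ 3 * (r * t)) : |a * b - c * d| ≤ 18 * (r * s * t ^ 2) := by
  have h1 : |a * b - c * d| ≤ |a| * |b| + |c| * |d| := by
    rw [← abs_mul, ← abs_mul]
    exact abs_sub _ _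
  have h2 : |a| * |b| ≤ 3 * (r * t) * (3 * (s * t)) :=
    mul_le_mul ha hb (abs_nonneg _) (by positivity)
  have h3 : |c| * |d| ≤ 3 * (s * t) * (3 * (r * t)) :=
    mul_le_mul hc hd (abs_nonneg _) (by positivity)
  calc |a * b - c * d| ≤ 3 * (r * t) * (3 * (s * t)) + 3 * (s * t) * (3 * (r * t)) := by linarith
    _ = 18 * (r * s * t ^ 2) := by ring

theorem tri_abs (h : Sh r1 r2 r3 t p y1 y2 y3 g1 g2 g3 N1 N2 N3)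
    (h' : Sh r1 r2 r3 t p y1 y2 y3 g1' g2' g3' N1' N2' N3') :
    |g2 * g3' - g3 * g2'| ≤ 18 * (r2 * r3 * t ^ 2) ∧ |g1 * g2' - g2 * g1'| ≤ 18 * (r1 * r2 * t ^ 2) :=
  ⟨ShA_tri h.r2p h.r3p h.tp h.u2 h'.u3 h.u3 h'.u2, ShA_tri h.r1p h.r2p h.tp h.u1 h'.u2 h.u2 h'.u1⟩

end Pool.Agent.PPR
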