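import Pool.Agent.PPR.Defs

/-!
# PPR/DefsB: the version with `(μ⁴ min (μ, E))^(1/5)` instead of `min (μ, E)`

PROOFS.  `mu_pow`: `Real.rpow_natCast`, `(x ^ (1/5)) ^ 5 = x` for `x ≥ 0`.
-/

set_option autoImplicit false

namespace Pool.Agent.PPR

/-- `(μ⁴ min (μ, E))^(1/5)` -/
noncomputable def Mu (μ E : ℝ) : ℝ := (μ ^ 4 * min μ E) ^ (1 / 5 : ℝ)

theorem mu_pow (μ E : ℝ) (hμ : 0 < μ) (hE : 0 < E) : Mu μ E ^ 5 = μ ^ 4 * min μ E := by
  unfold Mu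
  have h : 0 ≤ μ ^ 4 * min μ E := by positivity
  rw [← Real.rpow_natCast, ← Real.rpow_mul h]
  norm_num

theorem mu_pos (μ E : ℝ) (hμ : 0 < μ) (hE : 0 < E) : 0 < Mu μ E := by
  unfold Mu
  positivity

theorem mu_le (μ E : ℝ) (hμ : 0 < μ) (hE : 0 < E) : Mu μ E ≤ μ := by
  have h := mu_pow μ E hμ hE
  have h0 := mu_pos μ E hμ hE
  refine le_of_pow_le_pow_left₀ (n := 5) (by norm_num) hμ.le ?_
  rw [h]
  calc μ ^ 4 * min μ E ≤ μ ^ 4 * μ := by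
        exact mul_le_mul_of_nonneg_left (min_le_left _ _) (by positivity)
    _ = μ ^ 5 := by ring

theorem le_mu (μ E : ℝ) (hμ : 0 < μ) (hE : 0 < E) : min μ E ≤ Mu μ E := by
  have h := mu_pow μ E hμ hE
  have h0 := mu_pos μ E hμ hE
  refine le_of_pow_le_pow_left₀ (n := 5) (by norm_num) h0.le ?_
  rw [h]
  have hm : 0 < min μ E := lt_min hμ hE
  calc min μ E ^ 5 = min μ E ^ 4 * min μ E := by ring
    _ ≤ μ ^ 4 * min μ E := by
        refine mul_le_mul_of_nonneg_right ?_ hm.le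
        exact pow_le_pow_left₀ hm.le (min_le_left _ _) 4

theorem mu_hom (c μ E : ℝ) (hc : 0 < c) (hμ : 0 < μ) (hE : 0 < E) :
    Mu (c * μ) (c * E) = c * Mu μ E := by
  have h := mu_pow μ E hμ hE
  have h1 := mu_pow (c * μ) (c * E) (by positivity) (by positivity)
  have h0 := mu_pos μ E hμ hE
  have h2 := mu_pos (c * μ) (c * E) (by positivity) (by positivity)
  have h3 : min (c * μ) (c * E) = c * min μ E := (mul_min_of_nonneg μ E hc.le).symm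
  refine (pow_left_inj₀ h2.le (by positivity) (n := 5) (by norm_num)).mp ?_
  rw [h1, h3]
  calc (c * μ) ^ 4 * (c * min μ E) = c ^ 5 * (μ ^ 4 * min μ E) := by ring
    _ = c ^ 5 * Mu μ E ^ 5 := by rw [h]
    _ = (c * Mu μ E) ^ 5 := by ring

/-- normalised: the number of `(p, y)` -/
noncomputable def G1 (η1 η2 η3 k μ : ℝ) : ℝ := k * Mu μ (η1 * η2 * η3)

/-- normalised plane term -/
noncomputable def G2 (η1 η2 η3 k μ s : ℝ) : ℝ :=
  k * Mu μ (η1 * η2 * η3) * (min (s ^ 2) (μ / k) + min (s ^ 2) (μ / η2) + min (s ^ 2) (μ / η3)) /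
    (μ * s)

/-- normalised span term -/
noncomputable def G3 (η1 η2 η3 k μ s : ℝ) : ℝ :=
  k * Mu μ (η1 * η2 * η3) * (min (s ^ 2) (μ / k) * min (min (s ^ 2) (μ / η2)) (min (s ^ 2) (μ / η3))) /
    (μ ^ 2 * s)

/-- the bound for the sum of the weights in a dyadic box -/
noncomputable def Bxx (ph y1h y2h y3h Dh : ℝ) : ℝ := ph * Mu Dh (y1h * y2h * y3h)

/-- the bound for a box: `Bxx` times `1 +` plane term `+` span term -/
noncomputable def BJ (r1 r2 r3 Q τ : ℝ) (x : Ix) : ℝ :=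
  Bxx (2 ^ x.2.2.2.1) (2 ^ x.1) (2 ^ x.2.1) (2 ^ x.2.2.1) (2 ^ x.2.2.2.2.1) *
    (1 + Aa r1 r2 r3 (τ * 2 ^ x.2.2.2.2.2) Q (2 ^ x.2.2.2.1) (2 ^ x.2.1) (2 ^ x.2.2.1)
        (2 ^ x.2.2.2.2.1) +
      Bb r1 r2 r3 (τ * 2 ^ x.2.2.2.2.2) (2 ^ x.2.2.2.1) (2 ^ x.2.1) (2 ^ x.2.2.1)
        (2 ^ x.2.2.2.2.1))

end Pool.Agent.PPR
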