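import Pool.Agent.PPR.RtB

/-!
# PPR/FsC: the functions `G1` and `G2`

Notation: `E = η1 η2 η3`, `Z = Zz ..`, `M = min μ E`, `Mu ^ 5 = μ ^ 4 M` (`mu_pow`).  `E ≤ 64 η_i` for every `i`, `E ≤ 512 = 2 ^ 9`,
`μ ≤ 2 ^ 9`, `k ≤ 2 ^ 3`, `s ≤ 2 ^ 4`, `μ ≤ 300 s ^ 2`.  `H = F ^ 5`; the goal is `H ^ 6 ≤ 2 ^ 400 z` for every `z` of `η1, η2, η3, k, μ, s ^ 2`; then
apply `rootB`.

PROOF of `g1`.  `H = k ^ 5 μ ^ 4 M ≤ 2 ^ 60`; `H ≤ 2 ^ 57 k`, `H ≤ 2 ^ 51 μ ≤ 2 ^ 60 s ^ 2`, `H ≤ 2 ^ 51 E ≤ 2 ^ 57 η_i`: `H ≤ 2 ^ 60 z`, so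
`H ^ 6 ≤ 2 ^ 360 z`.

PROOF of `g2p`.  `f = k Mu m / (μ s)` with `m = min (s ^ 2) (μ / k)`, `H = f ^ 5 = k ^ 5 (M / μ) (m / s) ^ 5`; `M ≤ μ`, `m / s ≤ s`, so `0 ≤ H ≤ 2 ^ 35`.
`(m / s) ^ 2 ≤ μ / k`, so `H ^ 2 ≤ k ^ 10 (M / μ) ^ 2 (μ / k) ^ 5 = k ^ 5 M ^ 2 μ ^ 3`, which is at most `2 ^ 57 k`, at most `2 ^ 51 μ ≤ 2 ^ 60 s ^ 2`, and at most
`2 ^ 51 E ≤ 2 ^ 57 η_i`.  So `H ^ 6 ≤ (2 ^ 35) ^ 4 2 ^ 60 z = 2 ^ 200 z`.

PROOF of `g2e`.  Here `η` is `η2` or `η3`, only `E ≤ 64 η` is used.  `f = k Mu m / (μ s)` with `m = min (s ^ 2) (μ / η)`, `H = f ^ 5 = k ^ 5 (M / μ) (m / s) ^ 5`.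
(a) `0 ≤ H ≤ k ^ 5 s ^ 5 ≤ 2 ^ 35`, `H ≤ 2 ^ 32 k`.
(b) CASE `E ≤ μ`: `k ^ 3 ≤ 16 μ`.  `H ≤ k ^ 5 s ^ 5 ≤ 2 ^ 6 k ^ 3 2 ^ 20 ≤ 2 ^ 30 μ ≤ 2 ^ 39 s ^ 2`; and with `M / μ = E / μ`: `H ≤ 2 ^ 26 k ^ 3 E / μ ≤ 2 ^ 30 E ≤ 2 ^ 36 η_i`.
So `H ^ 6 ≤ (2 ^ 35) ^ 5 2 ^ 39 z`.
(c) CASE `E > μ`: `k ^ 3 ≤ 16 E`, `M = μ`, `(m / s) ^ 2 ≤ μ / η ≤ 64 μ / E`, so `H ^ 6 = k ^ 30 (m / s) ^ 30 ≤ (16 E) ^ 10 (64 μ / E) ^ 15 = 2 ^ 130 μ ^ 15 / E ^ 5 ≤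
2 ^ 130 μ ^ 10 ≤ 2 ^ 211 μ`, and `μ ≤ E ≤ 64 η_i`, `μ ≤ 300 s ^ 2`; for `k` use (a).

PROOF of `g2`: `G2` is the sum of the three functions of `g2p`, `g2e η2`, `g2e η3`.
-/

set_option autoImplicit false

namespace Pool.Agent.PPR

variable {η1 η2 η3 k μ s : ℝ}

private theorem fsc_fin (h : Rg η1 η2 η3 k μ s) (F : ℝ) (hF : 0 ≤ F) (hk : F ^ 30 ≤ 2 ^ 380 * k)
    (hM : F ^ 30 ≤ 2 ^ 380 * min μ (η1 * η2 * η3)) :
    F ≤ 2 ^ 400 * Zz η1 η2 η3 k μ s ^ (1 / 180 : ℝ) := by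
  have p1 := h.p1
  have p2 := h.p2
  have p3 := h.p3
  have pk := h.pk
  have pm := h.pm
  have ps := h.ps
  have b1 := h.b1
  have b2 := h.b2
  have b3 := h.b3
  have hs := h.hs
  have m1 : min μ (η1 * η2 * η3) ≤ μ := min_le_left _ _
  have m2 : min μ (η1 * η2 * η3) ≤ η1 * η2 * η3 := min_le_right _ _
  have e1 : η1 * η2 * η3 ≤ 64 * η1 := by
    have : η2 * η3 ≤ 64 := by nlinarith
    nlinarith
  have e2 : η1 * η2 * η3 ≤ 64 * η2 := by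
    have : η1 * η3 ≤ 64 := by nlinarith
    nlinarith
  have e3 : η1 * η2 * η3 ≤ 64 * η3 := by
    have : η1 * η2 ≤ 64 := by nlinarith
    nlinarith
  have c : (2 : ℝ) ^ 400 = 2 ^ 380 * 2 ^ 20 := by rw [← pow_add]
  have c0 : (0 : ℝ) < 2 ^ 380 := by positivity
  have key : ∀ z : ℝ, min μ (η1 * η2 * η3) ≤ 2 ^ 20 * z → F ^ 30 ≤ 2 ^ 400 * z := by
    intro z hz
    rw [c, mul_assoc]
    exact hM.trans (mul_le_mul_of_nonneg_left hz c0.le)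
  refine rootB (2 ^ 400) F η1 η2 η3 k μ s (one_le_pow₀ (by norm_num)) hF p1 p2 p3 pk pm ps
    (key _ ?_) (key _ ?_) (key _ ?_) ?_ (key _ ?_) (key _ ?_)
  · linarith
  · linarith
  · linarith
  · rw [c, mul_assoc]
    refine hk.trans (mul_le_mul_of_nonneg_left ?_ c0.le)
    linarith
  · linarith
  · have : 0 < s ^ 2 := by positivity
    linarith

private theorem fsc_pow6 (H z : ℝ) (hH : 0 ≤ H) (h1 : H ≤ 2 ^ 60) (h2 : H ≤ 2 ^ 60 * z) :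
    H ^ 6 ≤ 2 ^ 380 * z := by
  have hz : 0 ≤ 2 ^ 60 * z := hH.trans h2
  calc H ^ 6 = H ^ 5 * H := by ring
    _ ≤ (2 ^ 60) ^ 5 * (2 ^ 60 * z) :=
        mul_le_mul (pow_le_pow_left₀ hH h1 5) h2 hH (by positivity)
    _ = 2 ^ 360 * z := by rw [← pow_mul, ← mul_assoc, ← pow_add]
    _ ≤ 2 ^ 380 * z := by
        have hz0 : 0 ≤ z := by
          by_contra hn
          push Not at hn
          have : 2 ^ 60 * z < 0 := mul_neg_of_pos_of_neg (by positivity) hn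
          linarith
        exact mul_le_mul_of_nonneg_right (pow_le_pow_right₀ (by norm_num) (by norm_num)) hz0

private theorem fsc_k (k : ℝ) (h0 : 0 < k) (h8 : k ≤ 8) :
    k ^ 2 ≤ 2 ^ 6 ∧ k ^ 4 ≤ 2 ^ 12 ∧ k ^ 5 ≤ 2 ^ 15 := by
  refine ⟨?_, ?_, ?_⟩
  · calc k ^ 2 ≤ 8 ^ 2 := pow_le_pow_left₀ h0.le h8 2
      _ = 2 ^ 6 := by norm_num
  · calc k ^ 4 ≤ 8 ^ 4 := pow_le_pow_left₀ h0.le h8 4
      _ = 2 ^ 12 := by norm_num
  · calc k ^ 5 ≤ 8 ^ 5 := pow_le_pow_left₀ h0.le h8 5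
      _ = 2 ^ 15 := by norm_num

theorem g1 (h : Rg η1 η2 η3 k μ s) :
    G1 η1 η2 η3 k μ ≤ 2 ^ 400 * Zz η1 η2 η3 k μ s ^ (1 / 180 : ℝ) := by
  have p1 := h.p1
  have p2 := h.p2
  have p3 := h.p3
  have pk := h.pk
  have pm := h.pm
  have hE : 0 < η1 * η2 * η3 := by positivity
  have hMu := mu_pow μ (η1 * η2 * η3) pm hE
  have hMu0 := mu_pos μ (η1 * η2 * η3) pm hE
  obtain ⟨k2, k4, k5⟩ := fsc_k k pk h.bk
  have μ4 : μ ^ 4 ≤ 2 ^ 36 := by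
    calc μ ^ 4 ≤ 512 ^ 4 := pow_le_pow_left₀ pm.le h.bm 4
      _ = 2 ^ 36 := by norm_num
  have hM : 0 < min μ (η1 * η2 * η3) := lt_min pm hE
  have hM9 : min μ (η1 * η2 * η3) ≤ 2 ^ 9 := (min_le_left _ _).trans (h.bm.trans (by norm_num))
  have hF5 : G1 η1 η2 η3 k μ ^ 5 = k ^ 5 * (μ ^ 4 * min μ (η1 * η2 * η3)) := by
    unfold G1
    rw [mul_pow, hMu]
  have hF0 : 0 ≤ G1 η1 η2 η3 k μ := by
    unfold G1
    positivity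
  have e30 : G1 η1 η2 η3 k μ ^ 30 = (G1 η1 η2 η3 k μ ^ 5) ^ 6 := by ring
  have hH0 : 0 ≤ k ^ 5 * (μ ^ 4 * min μ (η1 * η2 * η3)) := by positivity
  have hHM : k ^ 5 * (μ ^ 4 * min μ (η1 * η2 * η3)) ≤ 2 ^ 51 * min μ (η1 * η2 * η3) := by
    calc k ^ 5 * (μ ^ 4 * min μ (η1 * η2 * η3)) ≤ 2 ^ 15 * (2 ^ 36 * min μ (η1 * η2 * η3)) :=
          mul_le_mul k5 (mul_le_mul_of_nonneg_right μ4 hM.le) (by positivity) (by positivity)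
      _ = 2 ^ 51 * min μ (η1 * η2 * η3) := by ring
  have hH60 : k ^ 5 * (μ ^ 4 * min μ (η1 * η2 * η3)) ≤ 2 ^ 60 := by
    refine hHM.trans ?_
    calc (2 : ℝ) ^ 51 * min μ (η1 * η2 * η3) ≤ 2 ^ 51 * 2 ^ 9 :=
          mul_le_mul_of_nonneg_left hM9 (by positivity)
      _ = 2 ^ 60 := by norm_num
  have hHk : k ^ 5 * (μ ^ 4 * min μ (η1 * η2 * η3)) ≤ 2 ^ 60 * k := by
    calc k ^ 5 * (μ ^ 4 * min μ (η1 * η2 * η3)) =
          k ^ 4 * (μ ^ 4 * min μ (η1 * η2 * η3)) * k := by ring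
      _ ≤ 2 ^ 12 * (2 ^ 36 * 2 ^ 9) * k := by
          refine mul_le_mul_of_nonneg_right ?_ pk.le
          exact mul_le_mul k4 (mul_le_mul μ4 hM9 hM.le (by positivity)) (by positivity)
            (by positivity)
      _ = 2 ^ 57 * k := by ring
      _ ≤ 2 ^ 60 * k := mul_le_mul_of_nonneg_right (by norm_num) pk.le
  refine fsc_fin h _ hF0 ?_ ?_
  · rw [e30, hF5]
    exact fsc_pow6 _ _ hH0 hH60 hHk
  · rw [e30, hF5]
    refine fsc_pow6 _ _ hH0 hH60 (hHM.trans ?_)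
    exact mul_le_mul_of_nonneg_right (by norm_num) hM.le

private theorem fsc_H (k μ s E κ : ℝ) (hμ : 0 < μ) (hs : 0 < s) (hE : 0 < E)
    (hκ : 0 < κ) : ∃ v w : ℝ, 0 ≤ v ∧ v ≤ s ∧ v ^ 2 ≤ μ / κ ∧ 0 ≤ w ∧ w ≤ 1 ∧ w * μ = min μ E ∧
      (k * Mu μ E * min (s ^ 2) (μ / κ) / (μ * s)) ^ 5 = k ^ 5 * w * v ^ 5 := by
  have hMu := mu_pow μ E hμ hE
  have hM : 0 < min μ E := lt_min hμ hE
  have hm0 : 0 ≤ min (s ^ 2) (μ / κ) := le_min (by positivity) (by positivity)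
  refine ⟨min (s ^ 2) (μ / κ) / s, min μ E / μ, by positivity, ?_, ?_, by positivity, ?_, ?_, ?_⟩
  · rw [div_le_iff₀ hs]
    calc min (s ^ 2) (μ / κ) ≤ s ^ 2 := min_le_left _ _
      _ = s * s := by ring
  · rw [div_pow, div_le_iff₀ (by positivity)]
    calc min (s ^ 2) (μ / κ) ^ 2 = min (s ^ 2) (μ / κ) * min (s ^ 2) (μ / κ) := by ring
      _ ≤ (μ / κ) * s ^ 2 :=
          mul_le_mul (min_le_right _ _) (min_le_left _ _) hm0 (by positivity)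
  · rw [div_le_one hμ]
    exact min_le_left _ _
  · field_simp
  · have e : k * Mu μ E * min (s ^ 2) (μ / κ) / (μ * s) =
        k * (Mu μ E / μ) * (min (s ^ 2) (μ / κ) / s) := by
      field_simp
    rw [e, mul_pow, mul_pow, div_pow (Mu μ E), hMu]
    congr 2
    field_simp

private theorem fsc_v5 (k s v w : ℝ) (pk : 0 < k) (bk : k ≤ 8) (v0 : 0 ≤ v) (vs : v ≤ s)
    (bs : s ≤ 16) (w0 : 0 ≤ w) (w1 : w ≤ 1) :
    v ^ 5 ≤ 2 ^ 20 ∧ k ^ 5 * w * v ^ 5 ≤ 2 ^ 35 ∧ k ^ 5 * w * v ^ 5 ≤ 2 ^ 32 * k := by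
  obtain ⟨k2, k4, k5⟩ := fsc_k k pk bk
  have hv : v ^ 5 ≤ 2 ^ 20 := by
    calc v ^ 5 ≤ 16 ^ 5 := pow_le_pow_left₀ v0 (vs.trans bs) 5
      _ = 2 ^ 20 := by norm_num
  refine ⟨hv, ?_, ?_⟩
  · calc k ^ 5 * w * v ^ 5 ≤ 2 ^ 15 * 1 * 2 ^ 20 :=
          mul_le_mul (mul_le_mul k5 w1 w0 (by positivity)) hv (by positivity) (by positivity)
      _ = 2 ^ 35 := by norm_num
  · calc k ^ 5 * w * v ^ 5 = k ^ 4 * w * v ^ 5 * k := by ring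
      _ ≤ 2 ^ 12 * 1 * 2 ^ 20 * k := by
          refine mul_le_mul_of_nonneg_right ?_ pk.le
          exact mul_le_mul (mul_le_mul k4 w1 w0 (by positivity)) hv (by positivity) (by positivity)
      _ = 2 ^ 32 * k := by ring

theorem g2p (h : Rg η1 η2 η3 k μ s) :
    k * Mu μ (η1 * η2 * η3) * min (s ^ 2) (μ / k) / (μ * s) ≤
      2 ^ 400 * Zz η1 η2 η3 k μ s ^ (1 / 180 : ℝ) := by
  have p1 := h.p1
  have p2 := h.p2
  have p3 := h.p3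
  have pk := h.pk
  have pm := h.pm
  have ps := h.ps
  have hE : 0 < η1 * η2 * η3 := by positivity
  have hMu0 := mu_pos μ (η1 * η2 * η3) pm hE
  obtain ⟨v, w, v0, vs, v2, w0, w1, wM, hF5⟩ := fsc_H k μ s (η1 * η2 * η3) k pm ps hE pk
  obtain ⟨v5, H35, Hk⟩ := fsc_v5 k s v w pk h.bk v0 vs h.bs w0 w1
  obtain ⟨k2, k4, k5⟩ := fsc_k k pk h.bk
  have hM : 0 < min μ (η1 * η2 * η3) := lt_min pm hE
  have hm0 : 0 ≤ min (s ^ 2) (μ / k) := le_min (by positivity) (by positivity)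
  have hM9 : min μ (η1 * η2 * η3) ≤ 2 ^ 9 := (min_le_left _ _).trans (h.bm.trans (by norm_num))
  have μ3 : μ ^ 3 ≤ 2 ^ 27 := by
    calc μ ^ 3 ≤ 512 ^ 3 := pow_le_pow_left₀ pm.le h.bm 3
      _ = 2 ^ 27 := by norm_num
  have hF0 : 0 ≤ k * Mu μ (η1 * η2 * η3) * min (s ^ 2) (μ / k) / (μ * s) := by positivity
  set F := k * Mu μ (η1 * η2 * η3) * min (s ^ 2) (μ / k) / (μ * s) with hF
  have e30 : F ^ 30 = (F ^ 5) ^ 6 := by ring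
  have hH0 : 0 ≤ k ^ 5 * w * v ^ 5 := by positivity
  have hH2 : (k ^ 5 * w * v ^ 5) ^ 2 ≤ 2 ^ 51 * min μ (η1 * η2 * η3) := by
    calc (k ^ 5 * w * v ^ 5) ^ 2 = k ^ 10 * w ^ 2 * (v ^ 2) ^ 5 := by ring
      _ ≤ k ^ 10 * w ^ 2 * (μ / k) ^ 5 :=
          mul_le_mul_of_nonneg_left (pow_le_pow_left₀ (by positivity) v2 5) (by positivity)
      _ = k ^ 5 * ((w * μ) * (w * μ)) * μ ^ 3 := by field_simp
      _ = k ^ 5 * (min μ (η1 * η2 * η3) * min μ (η1 * η2 * η3)) * μ ^ 3 := by rw [wM]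
      _ ≤ 2 ^ 15 * (2 ^ 9 * min μ (η1 * η2 * η3)) * 2 ^ 27 := by
          refine mul_le_mul (mul_le_mul k5 (mul_le_mul_of_nonneg_right hM9 hM.le)
            (by positivity) (by positivity)) μ3 (by positivity) (by positivity)
      _ = 2 ^ 51 * min μ (η1 * η2 * η3) := by ring
  refine fsc_fin h F hF0 ?_ ?_
  · rw [e30, hF5]
    refine fsc_pow6 _ _ hH0 (H35.trans (by norm_num)) (Hk.trans ?_)
    exact mul_le_mul_of_nonneg_right (by norm_num) pk.le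
  · rw [e30, hF5]
    calc (k ^ 5 * w * v ^ 5) ^ 6 = (k ^ 5 * w * v ^ 5) ^ 4 * (k ^ 5 * w * v ^ 5) ^ 2 := by ring
      _ ≤ (2 ^ 35) ^ 4 * (2 ^ 51 * min μ (η1 * η2 * η3)) :=
          mul_le_mul (pow_le_pow_left₀ hH0 H35 4) hH2 (by positivity) (by positivity)
      _ = 2 ^ 191 * min μ (η1 * η2 * η3) := by ring
      _ ≤ 2 ^ 380 * min μ (η1 * η2 * η3) :=
          mul_le_mul_of_nonneg_right (pow_le_pow_right₀ (by norm_num) (by norm_num)) hM.le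

theorem g2e (h : Rg η1 η2 η3 k μ s) (η : ℝ) (hη : 0 < η) (he : η1 * η2 * η3 ≤ 64 * η) :
    k * Mu μ (η1 * η2 * η3) * min (s ^ 2) (μ / η) / (μ * s) ≤
      2 ^ 400 * Zz η1 η2 η3 k μ s ^ (1 / 180 : ℝ) := by
  have p1 := h.p1
  have p2 := h.p2
  have p3 := h.p3
  have pk := h.pk
  have pm := h.pm
  have ps := h.ps
  have hE : 0 < η1 * η2 * η3 := by positivity
  have hMu0 := mu_pos μ (η1 * η2 * η3) pm hE
  obtain ⟨v, w, v0, vs, v2, w0, w1, wM, hF5⟩ := fsc_H k μ s (η1 * η2 * η3) η pm ps hE hη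
  obtain ⟨v5, H35, Hk⟩ := fsc_v5 k s v w pk h.bk v0 vs h.bs w0 w1
  obtain ⟨k2, k4, k5⟩ := fsc_k k pk h.bk
  have hM : 0 < min μ (η1 * η2 * η3) := lt_min pm hE
  have hm0 : 0 ≤ min (s ^ 2) (μ / η) := le_min (by positivity) (by positivity)
  have hF0 : 0 ≤ k * Mu μ (η1 * η2 * η3) * min (s ^ 2) (μ / η) / (μ * s) := by positivity
  have hk3 := h.hk
  set F := k * Mu μ (η1 * η2 * η3) * min (s ^ 2) (μ / η) / (μ * s) with hF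
  have e30 : F ^ 30 = (F ^ 5) ^ 6 := by ring
  have hH0 : 0 ≤ k ^ 5 * w * v ^ 5 := by positivity
  refine fsc_fin h F hF0 ?_ ?_
  · rw [e30, hF5]
    refine fsc_pow6 _ _ hH0 (H35.trans (by norm_num)) (Hk.trans ?_)
    exact mul_le_mul_of_nonneg_right (by norm_num) pk.le
  · rw [e30, hF5]
    rcases le_or_gt (η1 * η2 * η3) μ with hc | hc
    · have hk' : k ^ 3 ≤ 16 * μ := by linarith
      refine fsc_pow6 _ _ hH0 (H35.trans (by norm_num)) ?_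
      calc k ^ 5 * w * v ^ 5 = k ^ 2 * k ^ 3 * w * v ^ 5 := by ring
        _ ≤ 2 ^ 6 * (16 * μ) * w * 2 ^ 20 := by
            refine mul_le_mul (mul_le_mul_of_nonneg_right ?_ w0) v5 (by positivity) (by positivity)
            exact mul_le_mul k2 hk' (by positivity) (by positivity)
        _ = 2 ^ 30 * (w * μ) := by ring
        _ = 2 ^ 30 * min μ (η1 * η2 * η3) := by rw [wM]
        _ ≤ 2 ^ 60 * min μ (η1 * η2 * η3) := mul_le_mul_of_nonneg_right (by norm_num) hM.le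
    · have hMμ : min μ (η1 * η2 * η3) = μ := min_eq_left hc.le
      have hk' : k ^ 3 ≤ 16 * (η1 * η2 * η3) := by linarith
      rw [hMμ]
      have hv' : v ^ 2 ≤ 64 * μ / (η1 * η2 * η3) := by
        refine v2.trans ?_
        rw [div_le_div_iff₀ hη hE]
        nlinarith
      have hμE : μ / (η1 * η2 * η3) ≤ 1 := by
        rw [div_le_one hE]
        exact hc.le
      have hμE0 : 0 ≤ μ / (η1 * η2 * η3) := by positivity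
      have hw1 : w ^ 6 ≤ 1 := pow_le_one₀ w0 w1
      calc (k ^ 5 * w * v ^ 5) ^ 6 = (k ^ 3) ^ 10 * (v ^ 2) ^ 15 * w ^ 6 := by ring
        _ ≤ (16 * (η1 * η2 * η3)) ^ 10 * (64 * μ / (η1 * η2 * η3)) ^ 15 * 1 := by
            refine mul_le_mul (mul_le_mul (pow_le_pow_left₀ (by positivity) hk' 10)
              (pow_le_pow_left₀ (by positivity) hv' 15) (by positivity) (by positivity)) hw1
              (by positivity) (by positivity)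
        _ = 2 ^ 130 * (μ / (η1 * η2 * η3)) ^ 5 * μ ^ 9 * μ := by
            field_simp
            norm_num
        _ ≤ 2 ^ 130 * 1 * 2 ^ 81 * μ := by
            refine mul_le_mul_of_nonneg_right ?_ pm.le
            refine mul_le_mul (mul_le_mul_of_nonneg_left (pow_le_one₀ hμE0 hμE) (by positivity))
              ?_ (by positivity) (by positivity)
            calc μ ^ 9 ≤ 512 ^ 9 := pow_le_pow_left₀ pm.le h.bm 9
              _ = 2 ^ 81 := by norm_num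
        _ = 2 ^ 211 * μ := by ring
        _ ≤ 2 ^ 380 * μ :=
            mul_le_mul_of_nonneg_right (pow_le_pow_right₀ (by norm_num) (by norm_num)) pm.le

theorem g2 (h : Rg η1 η2 η3 k μ s) :
    G2 η1 η2 η3 k μ s ≤ 2 ^ 402 * Zz η1 η2 η3 k μ s ^ (1 / 180 : ℝ) := by
  have p1 := h.p1
  have p2 := h.p2
  have p3 := h.p3
  have b1 := h.b1
  have b2 := h.b2
  have b3 := h.b3
  have a1 := g2p h
  have e2 : η1 * η2 * η3 ≤ 64 * η2 := by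
    have : η1 * η3 ≤ 64 := by nlinarith
    nlinarith
  have e3 : η1 * η2 * η3 ≤ 64 * η3 := by
    have : η1 * η2 ≤ 64 := by nlinarith
    nlinarith
  have a2 := g2e h η2 p2 e2
  have a3 := g2e h η3 p3 e3
  have hZ : 0 ≤ Zz η1 η2 η3 k μ s ^ (1 / 180 : ℝ) := by
    have pk := h.pk
    have pm := h.pm
    have ps := h.ps
    unfold Zz
    positivity
  have e : G2 η1 η2 η3 k μ s = k * Mu μ (η1 * η2 * η3) * min (s ^ 2) (μ / k) / (μ * s) +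
      k * Mu μ (η1 * η2 * η3) * min (s ^ 2) (μ / η2) / (μ * s) +
      k * Mu μ (η1 * η2 * η3) * min (s ^ 2) (μ / η3) / (μ * s) := by
    unfold G2
    ring
  rw [e]
  have c : (2 : ℝ) ^ 402 = 4 * 2 ^ 400 := by
    rw [show (4 : ℝ) = 2 ^ 2 by norm_num, ← pow_add]
  rw [c, mul_assoc (4 : ℝ) (2 ^ 400)]
  have c0 : 0 ≤ (2 : ℝ) ^ 400 * Zz η1 η2 η3 k μ s ^ (1 / 180 : ℝ) :=
    mul_nonneg (pow_nonneg (by norm_num) _) hZ
  generalize (2 : ℝ) ^ 400 * Zz η1 η2 η3 k μ s ^ (1 / 180 : ℝ) = W at *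
  linarith

end Pool.Agent.PPR
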