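import Pool.Agent.PPR.RtB

/-!
# PPR/FsD: the function `G3`
-/

set_option autoImplicit false

namespace Pool.Agent.PPR

private theorem FsD_core {E k μ s h v r w : ℝ} (pk : 0 < k) (pm : 0 < μ) (ps : 0 < s)
    (ph : 0 < h) (pE : 0 < E) (hv : 0 ≤ v) (hr : 0 ≤ r) (hw : 0 ≤ w) (v1 : v ≤ 1)
    (v2 : v * μ ≤ k * s ^ 2) (r1 : r ≤ 1) (r2 : r * μ ≤ E) (r3 : r * μ ≤ 8 * h ^ 2)
    (w1 : w ≤ s) (w2 : w ^ 2 * h ≤ μ) (bs : s ≤ 16) (bk : k ≤ 8) :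
    0 ≤ v ^ 5 * r * w ^ 5 ∧ (v ^ 5 * r * w ^ 5) ^ 6 ≤ 2 ^ 107 * μ ∧
    (v ^ 5 * r * w ^ 5) ^ 6 ≤ 2 ^ 107 * k ∧ (v ^ 5 * r * w ^ 5) ^ 6 ≤ 2 ^ 107 * E := by
  obtain ⟨H, hH⟩ : ∃ H : ℝ, H = v ^ 5 * r * w ^ 5 := ⟨_, rfl⟩
  rw [← hH]
  have hH0 : 0 ≤ H := by rw [hH]; positivity
  have hv5 : v ^ 5 ≤ 1 := pow_le_one₀ hv v1
  have hw5 : w ^ 5 ≤ s ^ 5 := pow_le_pow_left₀ hw w1 5
  have hs5 : s ^ 5 ≤ 2 ^ 20 := by
    calc s ^ 5 ≤ 16 ^ 5 := pow_le_pow_left₀ ps.le bs 5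
      _ = 2 ^ 20 := by norm_num
  have hHrw : H ≤ r * w ^ 5 := by
    rw [hH]
    calc v ^ 5 * r * w ^ 5 = v ^ 5 * (r * w ^ 5) := by ring
      _ ≤ 1 * (r * w ^ 5) := mul_le_mul_of_nonneg_right hv5 (by positivity)
      _ = r * w ^ 5 := one_mul _
  have hrw5 : r * w ^ 5 ≤ w ^ 5 := by
    calc r * w ^ 5 ≤ 1 * w ^ 5 := mul_le_mul_of_nonneg_right r1 (by positivity)
      _ = w ^ 5 := one_mul _
  have ha : H ≤ 2 ^ 20 := hHrw.trans (hrw5.trans (hw5.trans hs5))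
  have hw4 : w ^ 4 * h ^ 2 ≤ μ ^ 2 := by
    calc w ^ 4 * h ^ 2 = (w ^ 2 * h) ^ 2 := by ring
      _ ≤ μ ^ 2 := pow_le_pow_left₀ (by positivity) w2 2
  have hw54 : w ^ 5 ≤ 16 * w ^ 4 := by
    calc w ^ 5 = w * w ^ 4 := by ring
      _ ≤ 16 * w ^ 4 := mul_le_mul_of_nonneg_right (w1.trans bs) (by positivity)
  have hb : H ≤ 128 * μ := by
    rcases le_or_gt μ (h ^ 2) with hc | hc
    · have e1 : w ^ 4 * h ^ 2 ≤ μ * h ^ 2 := by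
        calc w ^ 4 * h ^ 2 ≤ μ ^ 2 := hw4
          _ = μ * μ := by ring
          _ ≤ μ * h ^ 2 := mul_le_mul_of_nonneg_left hc pm.le
      have e2 : w ^ 4 ≤ μ := le_of_mul_le_mul_right e1 (by positivity)
      linarith
    · have e1 : H * μ ≤ (128 * μ) * μ := by
        calc H * μ ≤ (r * w ^ 5) * μ := mul_le_mul_of_nonneg_right hHrw pm.le
          _ = (r * μ) * w ^ 5 := by ring
          _ ≤ (8 * h ^ 2) * (16 * w ^ 4) := mul_le_mul r3 hw54 (by positivity) (by positivity)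
          _ = 128 * (w ^ 4 * h ^ 2) := by ring
          _ ≤ 128 * μ ^ 2 := mul_le_mul_of_nonneg_left hw4 (by norm_num)
          _ = (128 * μ) * μ := by ring
      exact le_of_mul_le_mul_right e1 pm
  have hH5 : H ^ 5 ≤ (2 ^ 20) ^ 5 := pow_le_pow_left₀ hH0 ha 5
  refine ⟨hH0, ?_, ?_, ?_⟩
  · calc H ^ 6 = H ^ 5 * H := by ring
      _ ≤ (2 ^ 20) ^ 5 * (128 * μ) := mul_le_mul hH5 hb hH0 (by positivity)
      _ = 2 ^ 107 * μ := by ring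
  · have e1 : H * μ ^ 5 ≤ k ^ 5 * s ^ 15 := by
      have e2 : (v * μ) ^ 5 ≤ (k * s ^ 2) ^ 5 := pow_le_pow_left₀ (by positivity) v2 5
      calc H * μ ^ 5 = (v * μ) ^ 5 * (r * w ^ 5) := by rw [hH]; ring
        _ ≤ (k * s ^ 2) ^ 5 * s ^ 5 :=
          mul_le_mul e2 (hrw5.trans hw5) (by positivity) (by positivity)
        _ = k ^ 5 * s ^ 15 := by ring
    have e3 : H ^ 5 ≤ (128 * μ) ^ 5 := pow_le_pow_left₀ hH0 hb 5
    have e4 : H ^ 6 * μ ^ 5 ≤ (2 ^ 35 * (k ^ 5 * s ^ 15)) * μ ^ 5 := by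
      calc H ^ 6 * μ ^ 5 = (H * μ ^ 5) * H ^ 5 := by ring
        _ ≤ (k ^ 5 * s ^ 15) * (128 * μ) ^ 5 :=
          mul_le_mul e1 e3 (by positivity) (by positivity)
        _ = (2 ^ 35 * (k ^ 5 * s ^ 15)) * μ ^ 5 := by ring
    have e5 : H ^ 6 ≤ 2 ^ 35 * (k ^ 5 * s ^ 15) := le_of_mul_le_mul_right e4 (by positivity)
    have e6 : k ^ 4 ≤ 8 ^ 4 := pow_le_pow_left₀ pk.le bk 4
    have e7 : s ^ 15 ≤ 16 ^ 15 := pow_le_pow_left₀ ps.le bs 15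
    have e8 : k ^ 5 * s ^ 15 ≤ (8 ^ 4 * 16 ^ 15) * k := by
      calc k ^ 5 * s ^ 15 = (k ^ 4 * s ^ 15) * k := by ring
        _ ≤ (8 ^ 4 * 16 ^ 15) * k :=
          mul_le_mul_of_nonneg_right (mul_le_mul e6 e7 (by positivity) (by positivity)) pk.le
    calc H ^ 6 ≤ 2 ^ 35 * (k ^ 5 * s ^ 15) := e5
      _ ≤ 2 ^ 35 * ((8 ^ 4 * 16 ^ 15) * k) := mul_le_mul_of_nonneg_left e8 (by positivity)
      _ = 2 ^ 107 * k := by ring
  · have e1 : H * μ ≤ E * 2 ^ 20 := by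
      calc H * μ ≤ (r * w ^ 5) * μ := mul_le_mul_of_nonneg_right hHrw pm.le
        _ = (r * μ) * w ^ 5 := by ring
        _ ≤ E * 2 ^ 20 := mul_le_mul r2 (hw5.trans hs5) (by positivity) pE.le
    have e2 : H ^ 2 * μ ≤ (2 ^ 27 * E) * μ := by
      calc H ^ 2 * μ = H * (H * μ) := by ring
        _ ≤ (128 * μ) * (E * 2 ^ 20) := mul_le_mul hb e1 (by positivity) (by positivity)
        _ = (2 ^ 27 * E) * μ := by ring
    have e3 : H ^ 2 ≤ 2 ^ 27 * E := le_of_mul_le_mul_right e2 pm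
    have e4 : H ^ 4 ≤ (2 ^ 20) ^ 4 := pow_le_pow_left₀ hH0 ha 4
    calc H ^ 6 = H ^ 4 * H ^ 2 := by ring
      _ ≤ (2 ^ 20) ^ 4 * (2 ^ 27 * E) := mul_le_mul e4 e3 (by positivity) (by positivity)
      _ = 2 ^ 107 * E := by ring

theorem g3 {η1 η2 η3 k μ s : ℝ} (h : Rg η1 η2 η3 k μ s) :
    G3 η1 η2 η3 k μ s ≤ 2 ^ 400 * Zz η1 η2 η3 k μ s ^ (1 / 180 : ℝ) := by
  obtain ⟨p1, p2, p3, pk, pm, ps, b1, b2, b3, bk, bm, bs, hk, hs⟩ := h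
  obtain ⟨h', hh'⟩ : ∃ h' : ℝ, h' = max η2 η3 := ⟨_, rfl⟩
  have ph : 0 < h' := by rw [hh']; exact lt_max_of_lt_left p2
  have h2' : η2 ≤ h' := by rw [hh']; exact le_max_left _ _
  have h3' : η3 ≤ h' := by rw [hh']; exact le_max_right _ _
  obtain ⟨E, hE⟩ : ∃ E : ℝ, E = η1 * η2 * η3 := ⟨_, rfl⟩
  have pE : 0 < E := by rw [hE]; positivity
  have hE8 : E ≤ 8 * h' ^ 2 := by
    have h4 : η2 * η3 ≤ h' * h' := mul_le_mul h2' h3' p3.le ph.le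
    calc E = η1 * (η2 * η3) := by rw [hE]; ring
      _ ≤ 8 * (h' * h') := mul_le_mul b1 h4 (by positivity) (by norm_num)
      _ = 8 * h' ^ 2 := by ring
  have hE1 : E ≤ 64 * η1 := by
    have h4 : η2 * η3 ≤ 8 * 8 := mul_le_mul b2 b3 p3.le (by norm_num)
    calc E = η1 * (η2 * η3) := by rw [hE]; ring
      _ ≤ η1 * (8 * 8) := mul_le_mul_of_nonneg_left h4 p1.le
      _ = 64 * η1 := by ring
  have hE2 : E ≤ 64 * η2 := by
    have h4 : η1 * η3 ≤ 8 * 8 := mul_le_mul b1 b3 p3.le (by norm_num)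
    calc E = η2 * (η1 * η3) := by rw [hE]; ring
      _ ≤ η2 * (8 * 8) := mul_le_mul_of_nonneg_left h4 p2.le
      _ = 64 * η2 := by ring
  have hE3 : E ≤ 64 * η3 := by
    have h4 : η1 * η2 ≤ 8 * 8 := mul_le_mul b1 b2 p2.le (by norm_num)
    calc E = η3 * (η1 * η2) := by rw [hE]; ring
      _ ≤ η3 * (8 * 8) := mul_le_mul_of_nonneg_left h4 p3.le
      _ = 64 * η3 := by ring
  obtain ⟨M, hM⟩ : ∃ M : ℝ, M = min μ E := ⟨_, rfl⟩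
  obtain ⟨a, ha⟩ : ∃ a : ℝ, a = min (s ^ 2) (μ / k) := ⟨_, rfl⟩
  obtain ⟨b, hb⟩ : ∃ b : ℝ, b = min (min (s ^ 2) (μ / η2)) (min (s ^ 2) (μ / η3)) := ⟨_, rfl⟩
  have pM : 0 < M := by rw [hM]; exact lt_min pm pE
  have pa : 0 < a := by rw [ha]; exact lt_min (by positivity) (by positivity)
  have pb : 0 < b := by
    rw [hb]
    exact lt_min (lt_min (by positivity) (by positivity)) (lt_min (by positivity) (by positivity))
  have ha1 : a ≤ s ^ 2 := by rw [ha]; exact min_le_left _ _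
  have ha2 : k * a ≤ μ := by
    have h4 : a ≤ μ / k := by rw [ha]; exact min_le_right _ _
    rw [le_div_iff₀ pk] at h4
    linarith
  have hb1 : b ≤ s ^ 2 := by rw [hb]; exact (min_le_left _ _).trans (min_le_left _ _)
  have hb2 : b * h' ≤ μ := by
    have h4 : b ≤ μ / η2 := by rw [hb]; exact (min_le_left _ _).trans (min_le_right _ _)
    have h5 : b ≤ μ / η3 := by rw [hb]; exact (min_le_right _ _).trans (min_le_right _ _)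
    rw [le_div_iff₀ p2] at h4
    rw [le_div_iff₀ p3] at h5
    rcases max_choice η2 η3 with h6 | h6
    · rw [hh', h6]; exact h4
    · rw [hh', h6]; exact h5
  have hM1 : M ≤ μ := by rw [hM]; exact min_le_left _ _
  have hME : M ≤ E := by rw [hM]; exact min_le_right _ _
  obtain ⟨v, hv⟩ : ∃ v : ℝ, v = k * a / μ := ⟨_, rfl⟩
  obtain ⟨r, hr⟩ : ∃ r : ℝ, r = M / μ := ⟨_, rfl⟩
  obtain ⟨w, hw⟩ : ∃ w : ℝ, w = b / s := ⟨_, rfl⟩
  have v0 : 0 ≤ v := by rw [hv]; positivity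
  have r0 : 0 ≤ r := by rw [hr]; positivity
  have w0 : 0 ≤ w := by rw [hw]; positivity
  have v1 : v ≤ 1 := by rw [hv, div_le_one pm]; exact ha2
  have v2 : v * μ ≤ k * s ^ 2 := by
    rw [hv, div_mul_cancel₀ _ pm.ne']
    exact mul_le_mul_of_nonneg_left ha1 pk.le
  have r1 : r ≤ 1 := by rw [hr, div_le_one pm]; exact hM1
  have r2 : r * μ ≤ E := by rw [hr, div_mul_cancel₀ _ pm.ne']; exact hME
  have w1 : w ≤ s := by
    rw [hw, div_le_iff₀ ps]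
    calc b ≤ s ^ 2 := hb1
      _ = s * s := by ring
  have w2 : w ^ 2 * h' ≤ μ := by
    have h4 : w ^ 2 ≤ b := by
      rw [hw, div_pow, div_le_iff₀ (by positivity)]
      calc b ^ 2 = b * b := by ring
        _ ≤ b * s ^ 2 := mul_le_mul_of_nonneg_left hb1 pb.le
    exact (mul_le_mul_of_nonneg_right h4 ph.le).trans hb2
  obtain ⟨f0, f1, f2, f3⟩ := FsD_core pk pm ps ph pE v0 r0 w0 v1 v2 r1 r2 (r2.trans hE8) w1 w2
    bs bk
  have hMu := mu_pow μ E pm pE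
  have hMu0 := mu_pos μ E pm pE
  rw [← hM] at hMu
  obtain ⟨F, hF⟩ : ∃ F : ℝ, F = G3 η1 η2 η3 k μ s := ⟨_, rfl⟩
  have hFe : F = k * Mu μ E * (a * b) / (μ ^ 2 * s) := by
    rw [hF]
    unfold G3
    rw [ha, hb, hE]
  have hF0 : 0 ≤ F := by rw [hFe]; positivity
  have hF5 : F ^ 5 = v ^ 5 * r * w ^ 5 := by
    have e1 : F ^ 5 = k ^ 5 * Mu μ E ^ 5 * (a * b) ^ 5 / (μ ^ 2 * s) ^ 5 := by
      rw [hFe]; ring
    rw [e1, hMu, hv, hr, hw]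
    field_simp
  have hF30 : F ^ 30 = (v ^ 5 * r * w ^ 5) ^ 6 := by
    rw [← hF5]; ring
  rw [← hF30] at f1 f2 f3
  have c400 : (2 : ℝ) ^ 107 ≤ 2 ^ 400 := pow_le_pow_right₀ (by norm_num) (by norm_num)
  have c64 : (2 : ℝ) ^ 107 * 64 ≤ 2 ^ 400 := by
    have : (2 : ℝ) ^ 107 * 64 = 2 ^ 113 := by norm_num
    rw [this]
    exact pow_le_pow_right₀ (by norm_num) (by norm_num)
  have c300 : (2 : ℝ) ^ 107 * 300 ≤ 2 ^ 400 := by
    have : (2 : ℝ) ^ 107 * 300 ≤ 2 ^ 116 := by norm_num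
    exact this.trans (pow_le_pow_right₀ (by norm_num) (by norm_num))
  rw [← hF]
  have heta : ∀ η : ℝ, 0 < η → E ≤ 64 * η → F ^ 30 ≤ 2 ^ 400 * η := by
    intro η hη hEη
    calc F ^ 30 ≤ 2 ^ 107 * E := f3
      _ ≤ 2 ^ 107 * (64 * η) := mul_le_mul_of_nonneg_left hEη (by positivity)
      _ = (2 ^ 107 * 64) * η := by ring
      _ ≤ 2 ^ 400 * η := mul_le_mul_of_nonneg_right c64 hη.le
  refine rootB (2 ^ 400) F η1 η2 η3 k μ s (one_le_pow₀ (by norm_num)) hF0 p1 p2 p3 pk pm ps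
    (heta η1 p1 hE1) (heta η2 p2 hE2) (heta η3 p3 hE3) ?_ ?_ ?_
  · exact f2.trans (mul_le_mul_of_nonneg_right c400 pk.le)
  · exact f1.trans (mul_le_mul_of_nonneg_right c400 pm.le)
  · calc F ^ 30 ≤ 2 ^ 107 * μ := f1
      _ ≤ 2 ^ 107 * (300 * s ^ 2) := mul_le_mul_of_nonneg_left hs (by positivity)
      _ = (2 ^ 107 * 300) * s ^ 2 := by ring
      _ ≤ 2 ^ 400 * s ^ 2 := mul_le_mul_of_nonneg_right c300 (sq_nonneg s)

end Pool.Agent.PPR
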