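import Pool.Agent.PPR.DefsB

/-!
# PPR/NrmC: the normalised form of the three terms of the bound of a box

Put `U = r1 r2 r3`, `P = U / √d`, `η_i = y_ih √d / r_i ^ 3`, `k = ph √d / U`, `μ = Dh √d ^ 3 / U ^ 3`, `s = t √d / U`, i.e.
`ph = k P`, `Dh = μ P ^ 3`, `t = s P`, `y_ih = η_i r_i ^ 3 / √d`.
-/

set_option autoImplicit false

namespace Pool.Agent.PPR

section

variable (r1 r2 r3 w q t ph y1h y2h y3h Dh : ℝ)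

/-- `Bxx = P ^ 4 G1` -/
private lemma n1 (h1 : 0 < r1) (h2 : 0 < r2) (h3 : 0 < r3) (hw : 0 < w) (hp : 0 < ph)
    (hy1 : 0 < y1h) (hy2 : 0 < y2h) (hy3 : 0 < y3h) (hD : 0 < Dh) :
    Bxx ph y1h y2h y3h Dh = ((r1 * r2 * r3) / w) ^ 4 *
      G1 (y1h * w / r1 ^ 3) (y2h * w / r2 ^ 3) (y3h * w / r3 ^ 3)
        (ph * w / (r1 * r2 * r3)) (Dh * w ^ 3 / (r1 * r2 * r3) ^ 3) := by
  unfold Bxx G1
  have hc : 0 < (r1 * r2 * r3 / w) ^ 3 := by positivity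
  have e1 : Dh = (r1 * r2 * r3 / w) ^ 3 * (Dh * w ^ 3 / (r1 * r2 * r3) ^ 3) := by
    field_simp
  have e2 : y1h * y2h * y3h = (r1 * r2 * r3 / w) ^ 3 *
      (y1h * w / r1 ^ 3 * (y2h * w / r2 ^ 3) * (y3h * w / r3 ^ 3)) := by
    field_simp
  have e3 : Mu Dh (y1h * y2h * y3h) = (r1 * r2 * r3 / w) ^ 3 *
      Mu (Dh * w ^ 3 / (r1 * r2 * r3) ^ 3)
        (y1h * w / r1 ^ 3 * (y2h * w / r2 ^ 3) * (y3h * w / r3 ^ 3)) := by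
    rw [← mu_hom _ _ _ hc (by positivity) (by positivity), ← e1, ← e2]
  rw [e3]
  field_simp

private lemma n2 (h1 : 0 < r1) (h2 : 0 < r2) (h3 : 0 < r3) (hw : 0 < w) (hp : 0 < ph) :
    mm t ph Dh = (r1 * r2 * r3 / w) ^ 2 * min ((t * w / (r1 * r2 * r3)) ^ 2)
      (Dh * w ^ 3 / (r1 * r2 * r3) ^ 3 / (ph * w / (r1 * r2 * r3))) := by
  unfold mm
  rw [mul_min_of_nonneg _ _ (by positivity)]
  congr 1
  · field_simp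
  · field_simp

private lemma n3 (U r yh : ℝ) (hU : 0 < U) (hr : 0 < r) (hw : 0 < w) (hy : 0 < yh) :
    Lc U t r yh Dh = w * (U / w) ^ 3 * min ((t * w / U) ^ 2)
      (Dh * w ^ 3 / U ^ 3 / (yh * w / r ^ 3)) := by
  unfold Lc
  rw [mul_min_of_nonneg _ _ (by positivity)]
  congr 1
  · field_simp
  · field_simp

end

theorem nrm1 (r1 r2 r3 d ph y1h y2h y3h Dh : ℝ) (h1 : 0 < r1) (h2 : 0 < r2) (h3 : 0 < r3)
    (hd : 0 < d) (hp : 0 < ph) (hy1 : 0 < y1h) (hy2 : 0 < y2h) (hy3 : 0 < y3h) (hD : 0 < Dh) :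
    Bxx ph y1h y2h y3h Dh = ((r1 * r2 * r3) ^ 2 / d) ^ 2 *
      G1 (y1h * √d / r1 ^ 3) (y2h * √d / r2 ^ 3) (y3h * √d / r3 ^ 3)
        (ph * √d / (r1 * r2 * r3)) (Dh * √d ^ 3 / (r1 * r2 * r3) ^ 3) := by
  rw [n1 r1 r2 r3 √d ph y1h y2h y3h Dh h1 h2 h3 (Real.sqrt_pos.mpr hd) hp hy1 hy2 hy3 hD]
  congr 1
  have hs : √d ^ 2 = d := Real.sq_sqrt hd.le
  rw [div_pow, div_pow, ← pow_mul]
  congr 1
  rw [← hs]
  ring_nf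
  rw [Real.sqrt_sq (Real.sqrt_nonneg _)]

theorem nrm2 (r1 r2 r3 d Q t ph y1h y2h y3h Dh : ℝ) (h1 : 0 < r1) (h2 : 0 < r2) (h3 : 0 < r3)
    (hd : 0 < d) (hQ : 0 < Q) (ht : 0 < t) (hp : 0 < ph) (hy1 : 0 < y1h) (hy2 : 0 < y2h)
    (hy3 : 0 < y3h) (hD : 0 < Dh) :
    Bxx ph y1h y2h y3h Dh * Aa r1 r2 r3 t Q ph y2h y3h Dh =
      (r1 * r2 * r3) ^ 3 / (d * √Q) * G2 (y1h * √d / r1 ^ 3) (y2h * √d / r2 ^ 3)
        (y3h * √d / r3 ^ 3) (ph * √d / (r1 * r2 * r3)) (Dh * √d ^ 3 / (r1 * r2 * r3) ^ 3)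
        (t * √d / (r1 * r2 * r3)) := by
  have hw : 0 < √d := Real.sqrt_pos.mpr hd
  have hq : 0 < √Q := Real.sqrt_pos.mpr hQ
  have hs : √d ^ 2 = d := Real.sq_sqrt hd.le
  have hU : 0 < r1 * r2 * r3 := by positivity
  rw [n1 r1 r2 r3 √d ph y1h y2h y3h Dh h1 h2 h3 hw hp hy1 hy2 hy3 hD]
  unfold Aa G1 G2
  rw [n2 r1 r2 r3 √d t ph Dh h1 h2 h3 hw hp, n3 √d t Dh (r1 * r2 * r3) r2 y2h hU h2 hw hy2,
    n3 √d t Dh (r1 * r2 * r3) r3 y3h hU h3 hw hy3]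
  generalize Mu _ _ = M
  generalize min _ (Dh * √d ^ 3 / (r1 * r2 * r3) ^ 3 / (ph * √d / (r1 * r2 * r3))) = m1
  generalize min _ (Dh * √d ^ 3 / (r1 * r2 * r3) ^ 3 / (y2h * √d / r2 ^ 3)) = m2
  generalize min _ (Dh * √d ^ 3 / (r1 * r2 * r3) ^ 3 / (y3h * √d / r3 ^ 3)) = m3
  have hs' : d = √d ^ 2 := hs.symm
  generalize √d = w at *
  subst hs'
  generalize √Q = q at *
  field_simp

theorem nrm3 (r1 r2 r3 d t ph y1h y2h y3h Dh : ℝ) (h1 : 0 < r1) (h2 : 0 < r2) (h3 : 0 < r3)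
    (hd : 0 < d) (ht : 0 < t) (hp : 0 < ph) (hy1 : 0 < y1h) (hy2 : 0 < y2h)
    (hy3 : 0 < y3h) (hD : 0 < Dh) :
    Bxx ph y1h y2h y3h Dh * Bb r1 r2 r3 t ph y2h y3h Dh =
      (r1 * r2 * r3) ^ 2 / √d * G3 (y1h * √d / r1 ^ 3) (y2h * √d / r2 ^ 3) (y3h * √d / r3 ^ 3)
        (ph * √d / (r1 * r2 * r3)) (Dh * √d ^ 3 / (r1 * r2 * r3) ^ 3)
        (t * √d / (r1 * r2 * r3)) := by
  have hw : 0 < √d := Real.sqrt_pos.mpr hd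
  have hU : 0 < r1 * r2 * r3 := by positivity
  rw [n1 r1 r2 r3 √d ph y1h y2h y3h Dh h1 h2 h3 hw hp hy1 hy2 hy3 hD]
  unfold Bb G1 G3
  rw [n2 r1 r2 r3 √d t ph Dh h1 h2 h3 hw hp, n3 √d t Dh (r1 * r2 * r3) r2 y2h hU h2 hw hy2,
    n3 √d t Dh (r1 * r2 * r3) r3 y3h hU h3 hw hy3,
    ← mul_min_of_nonneg _ _ (by positivity : 0 ≤ √d * (r1 * r2 * r3 / √d) ^ 3)]
  generalize Mu _ _ = M
  generalize (min (min (_ : ℝ) _) (min (_ : ℝ) _) : ℝ) = m2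
  generalize min _ (Dh * √d ^ 3 / (r1 * r2 * r3) ^ 3 / (ph * √d / (r1 * r2 * r3))) = m1
  generalize √d = w at *
  field_simp

end Pool.Agent.PPR
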