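import Pool.Agent.PPR.Defs

/-!
# PPR/RatR: the ratio `g3 / g2` is almost determined by `(p, y)`

PROOF.  Write `Δ = y1 y2 y3 - p ^ 3`.  `m2`, `m3` give (the terms with `g1` cancel)
  `y3 g2 (N2 Δ) - y2 g3 (N3 Δ) = - p (y3 g2 ^ 3 - y2 g3 ^ 3)`.                                  (1)
`|g2|, |g3| > 0`.  Put `R = g3 / g2`, `β = y3 / y2`, `R0 = r3 / r2`, `u = |Δ| / (|p| t ^ 2)`.  From `l2, u2, l3, u3`:
`R0 / 6 ≤ |R| ≤ 6 R0`.  Divide (1) by `p y2 g2 ^ 3`: `β - R ^ 3 = - (Δ / (p g2 ^ 2)) (β N2 - R N3)`.  As `g2 ^ 2 ≥ r2 ^ 2 t ^ 2 / 4`: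
`|Δ| / (|p| g2 ^ 2) ≤ 4 u / r2 ^ 2`, `N2 ≤ 2 r2 ^ 2`, `N3 ≤ 2 r3 ^ 2`, so
  `|β - R ^ 3| ≤ 8 u (|β| + |R| R0 ^ 2) ≤ 8 u |β| + 288 u |R| ^ 3`      (`R0 ≤ 6 |R|`).          (2)
CASE `u ≥ 1 / 1000`: `|g2 g3' - g3 g2'| ≤ 18 r2 r3 t ^ 2 ≤ 18000 r2 r3 t ^ 2 u = 18000 r2 r3 |Δ| / |p|`.
CASE `u < 1 / 1000`: (2) gives `|β| ≤ |R| ^ 3 + |β| / 100 + |R| ^ 3 / 3`, so `|β| ≤ 2 |R| ^ 3`, and
`|β - R ^ 3| ≤ 304 u |R| ^ 3 ≤ 304 * 216 u R0 ^ 3 ≤ 66000 u R0 ^ 3`.  The same for `R' = g3' / g2'`.  So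
`|R ^ 3 - R' ^ 3| ≤ 132000 u R0 ^ 3`.  `R ^ 3 - R' ^ 3 = (R - R') (R ^ 2 + R R' + R' ^ 2)` and
`R ^ 2 + R R' + R' ^ 2 ≥ (3 / 4) R ^ 2 ≥ R0 ^ 2 / 48`, so `|R - R'| ≤ 48 * 132000 u R0 ≤ 6340000 u R0`, and
`|g2 g3' - g3 g2'| = |g2 g2'| |R' - R| ≤ 9 r2 ^ 2 t ^ 2 * 6340000 u R0 ≤ 6 * 10 ^ 7 r2 r3 t ^ 2 u = 6 * 10 ^ 7 r2 r3 |Δ| / |p|`.
-/

set_option autoImplicit false

namespace Pool.Agent.PPR

variable {r1 r2 r3 t p y1 y2 y3 g1 g2 g3 N1 N2 N3 g1' g2' g3' N1' N2' N3' : ℝ}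

private theorem ratR_pos (h : Sh r1 r2 r3 t p y1 y2 y3 g1 g2 g3 N1 N2 N3) :
    0 < |g2| ∧ 0 < |g3| := by
  have h1 := mul_pos h.r2p h.tp
  have h2 := mul_pos h.r3p h.tp
  have h3 := h.l2
  have h4 := h.l3
  constructor <;> linarith

private theorem ratR_bd (h : Sh r1 r2 r3 t p y1 y2 y3 g1 g2 g3 N1 N2 N3) :
    r3 / r2 ≤ 6 * |g3 / g2| ∧ |g3 / g2| ≤ 6 * (r3 / r2) := by
  obtain ⟨p2, p3⟩ := ratR_pos h
  have r2p := h.r2p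
  have r3p := h.r3p
  have tp := h.tp
  have l2 := h.l2
  have l3 := h.l3
  have u2 := h.u2
  have u3 := h.u3
  rw [abs_div]
  constructor
  · rw [← mul_div_assoc, div_le_div_iff₀ r2p p2]
    have e1 : r3 * |g2| ≤ r3 * (3 * (r2 * t)) := mul_le_mul_of_nonneg_left u2 r3p.le
    have e2 : 3 * r2 * (r3 * t) ≤ 3 * r2 * (2 * |g3|) :=
      mul_le_mul_of_nonneg_left l3 (by positivity)
    linarith
  · rw [← mul_div_assoc, div_le_div_iff₀ p2 r2p]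
    have e1 : r2 * |g3| ≤ r2 * (3 * (r3 * t)) := mul_le_mul_of_nonneg_left u3 r2p.le
    have e2 : 3 * r3 * (r2 * t) ≤ 3 * r3 * (2 * |g2|) :=
      mul_le_mul_of_nonneg_left l2 (by positivity)
    linarith

private theorem ratR_one (h : Sh r1 r2 r3 t p y1 y2 y3 g1 g2 g3 N1 N2 N3) (hp : p ≠ 0)
    (hy2 : y2 ≠ 0) {u : ℝ} (hu : u * (|p| * t ^ 2) = |y1 * y2 * y3 - p ^ 3|) (hu0 : 0 ≤ u) :
    |y3 / y2 - (g3 / g2) ^ 3| ≤ 8 * u * |y3 / y2| + 288 * u * |g3 / g2| ^ 3 := by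
  obtain ⟨p2, p3⟩ := ratR_pos h
  obtain ⟨b1, -⟩ := ratR_bd h
  have r2p := h.r2p
  have r3p := h.r3p
  have tp := h.tp
  have hg2 : g2 ≠ 0 := abs_pos.mp p2
  have hpp : 0 < |p| := abs_pos.mpr hp
  set Δ := y1 * y2 * y3 - p ^ 3 with hΔ
  have key : y3 / y2 - (g3 / g2) ^ 3
      = -(Δ / (p * g2 ^ 2)) * (y3 / y2 * N2 - g3 / g2 * N3) := by
    have m2 := h.m2
    have m3 := h.m3
    rw [← hΔ] at m2 m3
    field_simp
    linear_combination (g2 * y3) * m2 - (g3 * y2) * m3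
  have c1 : |Δ / (p * g2 ^ 2)| ≤ 4 * u / r2 ^ 2 := by
    rw [abs_div, abs_mul, abs_pow, ← hu, div_le_div_iff₀ (by positivity) (by positivity)]
    have l2 := h.l2
    have e : (r2 * t) ^ 2 ≤ (2 * |g2|) ^ 2 := pow_le_pow_left₀ (by positivity) l2 2
    have e2 : (u * |p|) * (r2 * t) ^ 2 ≤ (u * |p|) * (2 * |g2|) ^ 2 :=
      mul_le_mul_of_nonneg_left e (by positivity)
    calc u * (|p| * t ^ 2) * r2 ^ 2 = (u * |p|) * (r2 * t) ^ 2 := by ring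
      _ ≤ (u * |p|) * (2 * |g2|) ^ 2 := e2
      _ = 4 * u * (|p| * |g2| ^ 2) := by ring
  have c2 : |y3 / y2 * N2 - g3 / g2 * N3| ≤ |y3 / y2| * (2 * r2 ^ 2) + |g3 / g2| * (2 * r3 ^ 2) := by
    have n2 : 0 ≤ N2 := le_trans (sq_nonneg _) h.n2
    have n3 : 0 ≤ N3 := le_trans (sq_nonneg _) h.n3
    have e1 : |y3 / y2 * N2 - g3 / g2 * N3| ≤ |y3 / y2 * N2| + |g3 / g2 * N3| := abs_sub _ _
    rw [abs_mul (y3 / y2), abs_mul (g3 / g2), abs_of_nonneg n2, abs_of_nonneg n3] at e1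
    have e2 : |y3 / y2| * N2 ≤ |y3 / y2| * (2 * r2 ^ 2) :=
      mul_le_mul_of_nonneg_left h.n2' (abs_nonneg _)
    have e3 : |g3 / g2| * N3 ≤ |g3 / g2| * (2 * r3 ^ 2) :=
      mul_le_mul_of_nonneg_left h.n3' (abs_nonneg _)
    linarith
  rw [key, abs_mul, abs_neg]
  have c3 : |Δ / (p * g2 ^ 2)| * |y3 / y2 * N2 - g3 / g2 * N3| ≤
      4 * u / r2 ^ 2 * (|y3 / y2| * (2 * r2 ^ 2) + |g3 / g2| * (2 * r3 ^ 2)) :=
    mul_le_mul c1 c2 (abs_nonneg _) (by positivity)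
  refine c3.trans ?_
  have c4 : 4 * u / r2 ^ 2 * (|y3 / y2| * (2 * r2 ^ 2) + |g3 / g2| * (2 * r3 ^ 2))
      = 8 * u * |y3 / y2| + 8 * u * |g3 / g2| * (r3 / r2) ^ 2 := by
    field_simp
    ring
  rw [c4]
  have c5 : (r3 / r2) ^ 2 ≤ (6 * |g3 / g2|) ^ 2 := pow_le_pow_left₀ (by positivity) b1 2
  have c6 : 8 * u * |g3 / g2| * (r3 / r2) ^ 2 ≤ 8 * u * |g3 / g2| * (6 * |g3 / g2|) ^ 2 :=
    mul_le_mul_of_nonneg_left c5 (by positivity)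
  have c7 : 8 * u * |g3 / g2| * (6 * |g3 / g2|) ^ 2 = 288 * u * |g3 / g2| ^ 3 := by ring
  linarith

private theorem ratR_two (h : Sh r1 r2 r3 t p y1 y2 y3 g1 g2 g3 N1 N2 N3) (hp : p ≠ 0)
    (hy2 : y2 ≠ 0) {u : ℝ} (hu : u * (|p| * t ^ 2) = |y1 * y2 * y3 - p ^ 3|) (hu0 : 0 ≤ u)
    (hu1 : u < 1 / 1000) :
    |y3 / y2 - (g3 / g2) ^ 3| ≤ 66000 * u * (r3 / r2) ^ 3 := by
  have h1 := ratR_one h hp hy2 hu hu0
  obtain ⟨-, b2⟩ := ratR_bd h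
  have r2p := h.r2p
  have r3p := h.r3p
  set β := y3 / y2
  set R := g3 / g2
  have hR3 : 0 ≤ |R| ^ 3 := by positivity
  have hβ0 : 0 ≤ |β| := abs_nonneg _
  have h2 : |β| ≤ |R| ^ 3 + |β - R ^ 3| := by
    have := abs_add_le (R ^ 3) (β - R ^ 3)
    rw [add_sub_cancel, abs_pow] at this
    exact this
  have h3 : u * |β| ≤ 1 / 1000 * |β| := mul_le_mul_of_nonneg_right hu1.le hβ0
  have h4 : u * |R| ^ 3 ≤ 1 / 1000 * |R| ^ 3 := mul_le_mul_of_nonneg_right hu1.le hR3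
  have h5 : |β| ≤ 2 * |R| ^ 3 := by linarith
  have h6 : 8 * u * |β| ≤ 8 * u * (2 * |R| ^ 3) := mul_le_mul_of_nonneg_left h5 (by positivity)
  have h7 : |R| ^ 3 ≤ (6 * (r3 / r2)) ^ 3 := pow_le_pow_left₀ (abs_nonneg _) b2 3
  have h8 : 304 * u * |R| ^ 3 ≤ 304 * u * (6 * (r3 / r2)) ^ 3 :=
    mul_le_mul_of_nonneg_left h7 (by positivity)
  have h9 : 304 * u * (6 * (r3 / r2)) ^ 3 = 65664 * (u * (r3 / r2) ^ 3) := by ring
  have h10 : 0 ≤ u * (r3 / r2) ^ 3 := by positivity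
  linarith

theorem ratR (h : Sh r1 r2 r3 t p y1 y2 y3 g1 g2 g3 N1 N2 N3)
    (h' : Sh r1 r2 r3 t p y1 y2 y3 g1' g2' g3' N1' N2' N3') (hp : p ≠ 0) (hy2 : y2 ≠ 0) :
    |p| * |g2 * g3' - g3 * g2'| ≤ 6 * 10 ^ 7 * (r2 * r3 * |y1 * y2 * y3 - p ^ 3|) := by
  have hpp : 0 < |p| := abs_pos.mpr hp
  have r2p := h.r2p
  have r3p := h.r3p
  have tp := h.tp
  obtain ⟨p2, p3⟩ := ratR_pos h
  obtain ⟨p2', p3'⟩ := ratR_pos h'
  have hg2 : g2 ≠ 0 := abs_pos.mp p2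
  have hg2' : g2' ≠ 0 := abs_pos.mp p2'
  obtain ⟨u, hu⟩ : ∃ u, u * (|p| * t ^ 2) = |y1 * y2 * y3 - p ^ 3| :=
    ⟨|y1 * y2 * y3 - p ^ 3| / (|p| * t ^ 2), div_mul_cancel₀ _ (by positivity)⟩
  have hu0 : 0 ≤ u := by
    by_contra hneg
    push Not at hneg
    have : u * (|p| * t ^ 2) < 0 := mul_neg_of_neg_of_pos hneg (by positivity)
    have h0 := abs_nonneg (y1 * y2 * y3 - p ^ 3)
    linarith
  rw [← hu]
  have hA : 0 ≤ r2 * r3 * (|p| * t ^ 2) := by positivity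
  rcases le_or_gt (1 / 1000) u with hc | hc
  · have e1 : |g2 * g3' - g3 * g2'| ≤ 18 * (r2 * r3 * t ^ 2) := by
      have f1 : |g2 * g3' - g3 * g2'| ≤ |g2 * g3'| + |g3 * g2'| := abs_sub _ _
      rw [abs_mul, abs_mul] at f1
      have f2 : |g2| * |g3'| ≤ (3 * (r2 * t)) * (3 * (r3 * t)) :=
        mul_le_mul h.u2 h'.u3 (abs_nonneg _) (by positivity)
      have f3 : |g3| * |g2'| ≤ (3 * (r3 * t)) * (3 * (r2 * t)) :=
        mul_le_mul h.u3 h'.u2 (abs_nonneg _) (by positivity)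
      linarith
    have e2 : |p| * |g2 * g3' - g3 * g2'| ≤ |p| * (18 * (r2 * r3 * t ^ 2)) :=
      mul_le_mul_of_nonneg_left e1 hpp.le
    have e3 : 1 / 1000 * (r2 * r3 * (|p| * t ^ 2)) ≤ u * (r2 * r3 * (|p| * t ^ 2)) :=
      mul_le_mul_of_nonneg_right hc hA
    nlinarith
  · have a1 := ratR_two h hp hy2 hu hu0 hc
    have a2 := ratR_two h' hp hy2 hu hu0 hc
    obtain ⟨b1, -⟩ := ratR_bd h
    set β := y3 / y2
    set R := g3 / g2 with hR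
    set R' := g3' / g2' with hR'
    set R0 := r3 / r2 with hR0
    have hR0p : 0 < R0 := div_pos r3p r2p
    have a3 : |R ^ 3 - R' ^ 3| ≤ 132000 * u * R0 ^ 3 := by
      have f : R ^ 3 - R' ^ 3 = (β - R' ^ 3) - (β - R ^ 3) := by ring
      rw [f]
      have := abs_sub (β - R' ^ 3) (β - R ^ 3)
      linarith
    have a4 : R0 ^ 2 / 48 ≤ R ^ 2 + R * R' + R' ^ 2 := by
      have f1 : R0 ^ 2 ≤ (6 * |R|) ^ 2 := pow_le_pow_left₀ hR0p.le b1 2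
      rw [mul_pow, sq_abs] at f1
      nlinarith [sq_nonneg (R / 2 + R')]
    have a5 : |R - R'| * (R0 ^ 2 / 48) ≤ 132000 * u * R0 ^ 3 := by
      have f1 : |R ^ 3 - R' ^ 3| = |R - R'| * (R ^ 2 + R * R' + R' ^ 2) := by
        have f2 : R ^ 3 - R' ^ 3 = (R - R') * (R ^ 2 + R * R' + R' ^ 2) := by ring
        rw [f2, abs_mul, abs_of_nonneg (le_trans (by positivity) a4)]
      rw [f1] at a3
      exact le_trans (mul_le_mul_of_nonneg_left a4 (abs_nonneg _)) a3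
    have a6 : |R - R'| ≤ 6336000 * u * R0 := by
      have f1 : |R - R'| * (R0 ^ 2 / 48) ≤ (6336000 * u * R0) * (R0 ^ 2 / 48) := by
        calc |R - R'| * (R0 ^ 2 / 48) ≤ 132000 * u * R0 ^ 3 := a5
          _ = (6336000 * u * R0) * (R0 ^ 2 / 48) := by ring
      exact le_of_mul_le_mul_right f1 (by positivity)
    have a7 : g2 * g3' - g3 * g2' = (g2 * g2') * (R' - R) := by
      rw [hR, hR']
      field_simp
    have a8 : |g2 * g3' - g3 * g2'| ≤ (9 * (r2 * t) ^ 2) * (6336000 * u * R0) := by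
      rw [a7, abs_mul, abs_mul, abs_sub_comm]
      have f1 : |g2| * |g2'| ≤ 9 * (r2 * t) ^ 2 := by
        calc |g2| * |g2'| ≤ (3 * (r2 * t)) * (3 * (r2 * t)) :=
              mul_le_mul h.u2 h'.u2 (abs_nonneg _) (by positivity)
          _ = 9 * (r2 * t) ^ 2 := by ring
      exact mul_le_mul f1 a6 (abs_nonneg _) (by positivity)
    have a9 : (9 * (r2 * t) ^ 2) * (6336000 * u * R0) = 57024000 * (r2 * r3 * (u * t ^ 2)) := by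
      rw [hR0]
      field_simp
      ring
    rw [a9] at a8
    have e2 : |p| * |g2 * g3' - g3 * g2'| ≤ |p| * (57024000 * (r2 * r3 * (u * t ^ 2))) :=
      mul_le_mul_of_nonneg_left a8 hpp.le
    have e3 : 0 ≤ u * (r2 * r3 * (|p| * t ^ 2)) := mul_nonneg hu0 hA
    nlinarith

end Pool.Agent.PPR
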