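import Pool.Agent.PPR.DefsB

/-!
# PPR/RtB: six bounds give a bound by the geometric mean

PROOF.  The product of the six inequalities: `F ^ 180 ≤ K ^ 6 Z` with `Z = Zz ..`; and `(K Z ^ (1/180)) ^ 180 = K ^ 180 Z ≥ K ^ 6 Z`
(`1 ≤ K`); compare the 180-th powers (`le_of_pow_le_pow_left₀`).
-/

set_option autoImplicit false

namespace Pool.Agent.PPR

theorem rootB (K F η1 η2 η3 k μ s : ℝ) (hK : 1 ≤ K) (hF : 0 ≤ F) (p1 : 0 < η1) (p2 : 0 < η2)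
    (p3 : 0 < η3) (pk : 0 < k) (pm : 0 < μ) (ps : 0 < s) (h1 : F ^ 30 ≤ K * η1)
    (h2 : F ^ 30 ≤ K * η2) (h3 : F ^ 30 ≤ K * η3) (hk : F ^ 30 ≤ K * k) (hm : F ^ 30 ≤ K * μ)
    (hs : F ^ 30 ≤ K * s ^ 2) : F ≤ K * Zz η1 η2 η3 k μ s ^ (1 / 180 : ℝ) := by
  have hK0 : 0 ≤ K := by linarith
  have hZ : 0 ≤ Zz η1 η2 η3 k μ s := by
    unfold Zz
    positivity
  have hR : 0 ≤ K * Zz η1 η2 η3 k μ s ^ (1 / 180 : ℝ) :=
    mul_nonneg hK0 (Real.rpow_nonneg hZ _)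
  refine le_of_pow_le_pow_left₀ (n := 180) (by norm_num) hR ?_
  have hF30 : 0 ≤ F ^ 30 := by positivity
  have hprod : F ^ 180 ≤ K ^ 6 * Zz η1 η2 η3 k μ s := by
    have e1 : F ^ 30 * F ^ 30 ≤ (K * η1) * (K * η2) := mul_le_mul h1 h2 hF30 (by positivity)
    have e2 : F ^ 30 * F ^ 30 * F ^ 30 ≤ (K * η1) * (K * η2) * (K * η3) :=
      mul_le_mul e1 h3 hF30 (by positivity)
    have e3 : F ^ 30 * F ^ 30 * F ^ 30 * F ^ 30 ≤ (K * η1) * (K * η2) * (K * η3) * (K * k) :=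
      mul_le_mul e2 hk hF30 (by positivity)
    have e4 : F ^ 30 * F ^ 30 * F ^ 30 * F ^ 30 * F ^ 30
        ≤ (K * η1) * (K * η2) * (K * η3) * (K * k) * (K * μ) :=
      mul_le_mul e3 hm hF30 (by positivity)
    have e5 : F ^ 30 * F ^ 30 * F ^ 30 * F ^ 30 * F ^ 30 * F ^ 30
        ≤ (K * η1) * (K * η2) * (K * η3) * (K * k) * (K * μ) * (K * s ^ 2) :=
      mul_le_mul e4 hs hF30 (by positivity)
    have e6 : F ^ 180 = F ^ 30 * F ^ 30 * F ^ 30 * F ^ 30 * F ^ 30 * F ^ 30 := by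
      simp only [← pow_add]
    have e7 : (K * η1) * (K * η2) * (K * η3) * (K * k) * (K * μ) * (K * s ^ 2)
        = K ^ 6 * Zz η1 η2 η3 k μ s := by
      unfold Zz
      ring
    rw [e6, ← e7]
    exact e5
  have hpow : (K * Zz η1 η2 η3 k μ s ^ (1 / 180 : ℝ)) ^ 180 = K ^ 180 * Zz η1 η2 η3 k μ s := by
    rw [mul_pow, ← Real.rpow_natCast (Zz η1 η2 η3 k μ s ^ (1 / 180 : ℝ)) 180,
      ← Real.rpow_mul hZ]
    norm_num
  rw [hpow]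
  refine hprod.trans (mul_le_mul_of_nonneg_right ?_ hZ)
  exact pow_le_pow_right₀ hK (by norm_num)

end Pool.Agent.PPR
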