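import Pool.Agent.PPR.FsC
import Pool.Agent.PPR.FsD
import Pool.Agent.PPR.NrmC
import Pool.Agent.PPR.Geo

/-!
# PPR/TotC: the sum over all dyadic boxes, the three terms separately
-/

set_option autoImplicit false
set_option exponentiation.threshold 1000

namespace Pool.Agent.PPR

/-- the box number of a dyadic box -/
noncomputable def JB (x : Ix) : ℝ :=
  Bxx (2 ^ x.2.2.2.1) (2 ^ x.1) (2 ^ x.2.1) (2 ^ x.2.2.1) (2 ^ x.2.2.2.2.1)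

/-- the plane term of a dyadic box -/
noncomputable def JA (r1 r2 r3 Q τ : ℝ) (x : Ix) : ℝ :=
  Aa r1 r2 r3 (τ * 2 ^ x.2.2.2.2.2) Q (2 ^ x.2.2.2.1) (2 ^ x.2.1) (2 ^ x.2.2.1)
    (2 ^ x.2.2.2.2.1)

/-- the span term of a dyadic box -/
noncomputable def JC (r1 r2 r3 τ : ℝ) (x : Ix) : ℝ :=
  Bb r1 r2 r3 (τ * 2 ^ x.2.2.2.2.2) (2 ^ x.2.2.2.1) (2 ^ x.2.1) (2 ^ x.2.2.1)
    (2 ^ x.2.2.2.2.1)

theorem tj1 (r1 r2 r3 d τ : ℝ) (h1 : 0 < r1) (h2 : 0 < r2) (h3 : 0 < r3) (hd : 0 < d)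
    (x : Ix) (hx : RgI r1 r2 r3 d τ x) :
    JB x ≤ 2 ^ 402 * ZI r1 r2 r3 d τ x ^ (1 / 180 : ℝ) * ((r1 * r2 * r3) ^ 2 / d) ^ 2 := by
  unfold JB
  rw [nrm1 r1 r2 r3 d _ _ _ _ _ h1 h2 h3 hd (by positivity) (by positivity) (by positivity)
    (by positivity) (by positivity)]
  have h := g1 hx
  have hZ : 0 ≤ ZI r1 r2 r3 d τ x ^ (1 / 180 : ℝ) := by
    have : 0 ≤ ZI r1 r2 r3 d τ x := by
      have := hx.p1; have := hx.p2; have := hx.p3; have := hx.pk; have := hx.pm; have := hx.ps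
      unfold ZI Zz
      positivity
    positivity
  have hP : 0 ≤ ((r1 * r2 * r3) ^ 2 / d) ^ 2 := by positivity
  change _ ≤ 2 ^ 402 * (Zz _ _ _ _ _ _) ^ (1 / 180 : ℝ) * _
  have hZ' : 0 ≤ (Zz (2 ^ x.1 * √d / r1 ^ 3) (2 ^ x.2.1 * √d / r2 ^ 3) (2 ^ x.2.2.1 * √d / r3 ^ 3)
    (2 ^ x.2.2.2.1 * √d / (r1 * r2 * r3)) (2 ^ x.2.2.2.2.1 * √d ^ 3 / (r1 * r2 * r3) ^ 3)
    (τ * 2 ^ x.2.2.2.2.2 * √d / (r1 * r2 * r3))) ^ (1 / 180 : ℝ) := hZ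
  calc _ ≤ ((r1 * r2 * r3) ^ 2 / d) ^ 2 * (2 ^ 400 * _) := mul_le_mul_of_nonneg_left h hP
    _ ≤ _ := by
      generalize (Zz (2 ^ x.1 * √d / r1 ^ 3) (2 ^ x.2.1 * √d / r2 ^ 3) (2 ^ x.2.2.1 * √d / r3 ^ 3)
        (2 ^ x.2.2.2.1 * √d / (r1 * r2 * r3)) (2 ^ x.2.2.2.2.1 * √d ^ 3 / (r1 * r2 * r3) ^ 3)
        (τ * 2 ^ x.2.2.2.2.2 * √d / (r1 * r2 * r3))) ^ (1 / 180 : ℝ) = z at *
      have hk : (2 : ℝ) ^ 400 ≤ 2 ^ 402 := pow_le_pow_right₀ (by norm_num) (by norm_num)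
      have := mul_le_mul_of_nonneg_right hk (mul_nonneg hZ' hP)
      calc _ = 2 ^ 400 * (z * _) := by ring
        _ ≤ _ := this
        _ = _ := by ring

theorem tj2 (r1 r2 r3 d Q τ : ℝ) (h1 : 0 < r1) (h2 : 0 < r2) (h3 : 0 < r3) (hd : 0 < d)
    (hQ : 0 < Q) (hτ : 0 < τ) (x : Ix) (hx : RgI r1 r2 r3 d τ x) :
    JB x * JA r1 r2 r3 Q τ x ≤
      2 ^ 402 * ZI r1 r2 r3 d τ x ^ (1 / 180 : ℝ) * ((r1 * r2 * r3) ^ 3 / (d * √Q)) := by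
  unfold JB JA
  rw [nrm2 r1 r2 r3 d Q _ _ _ _ _ _ h1 h2 h3 hd hQ (by positivity) (by positivity)
    (by positivity) (by positivity) (by positivity) (by positivity)]
  have h := g2 hx
  have hP : 0 ≤ (r1 * r2 * r3) ^ 3 / (d * √Q) := by positivity
  calc _ ≤ (r1 * r2 * r3) ^ 3 / (d * √Q) * (2 ^ 402 * _) := mul_le_mul_of_nonneg_left h hP
    _ = _ := by unfold ZI; ring

theorem tj3 (r1 r2 r3 d τ : ℝ) (h1 : 0 < r1) (h2 : 0 < r2) (h3 : 0 < r3) (hd : 0 < d)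
    (hτ : 0 < τ) (x : Ix) (hx : RgI r1 r2 r3 d τ x) :
    JB x * JC r1 r2 r3 τ x ≤
      2 ^ 402 * ZI r1 r2 r3 d τ x ^ (1 / 180 : ℝ) * ((r1 * r2 * r3) ^ 2 / √d) := by
  unfold JB JC
  rw [nrm3 r1 r2 r3 d _ _ _ _ _ _ h1 h2 h3 hd (by positivity) (by positivity)
    (by positivity) (by positivity) (by positivity) (by positivity)]
  have h := g3 hx
  have hP : 0 ≤ (r1 * r2 * r3) ^ 2 / √d := by positivity
  have hZ' : 0 ≤ (Zz (2 ^ x.1 * √d / r1 ^ 3) (2 ^ x.2.1 * √d / r2 ^ 3) (2 ^ x.2.2.1 * √d / r3 ^ 3)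
    (2 ^ x.2.2.2.1 * √d / (r1 * r2 * r3)) (2 ^ x.2.2.2.2.1 * √d ^ 3 / (r1 * r2 * r3) ^ 3)
    (τ * 2 ^ x.2.2.2.2.2 * √d / (r1 * r2 * r3))) ^ (1 / 180 : ℝ) := by
    have := hx.p1; have := hx.p2; have := hx.p3; have := hx.pk; have := hx.pm; have := hx.ps
    unfold Zz
    positivity
  calc _ ≤ (r1 * r2 * r3) ^ 2 / √d * (2 ^ 400 * _) := mul_le_mul_of_nonneg_left h hP
    _ ≤ _ := by
      unfold ZI
      generalize (Zz (2 ^ x.1 * √d / r1 ^ 3) (2 ^ x.2.1 * √d / r2 ^ 3) (2 ^ x.2.2.1 * √d / r3 ^ 3)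
        (2 ^ x.2.2.2.1 * √d / (r1 * r2 * r3)) (2 ^ x.2.2.2.2.1 * √d ^ 3 / (r1 * r2 * r3) ^ 3)
        (τ * 2 ^ x.2.2.2.2.2 * √d / (r1 * r2 * r3))) ^ (1 / 180 : ℝ) = z at *
      have hk : (2 : ℝ) ^ 400 ≤ 2 ^ 402 := pow_le_pow_right₀ (by norm_num) (by norm_num)
      have := mul_le_mul_of_nonneg_right hk (mul_nonneg hZ' hP)
      calc _ = 2 ^ 400 * (z * _) := by ring
        _ ≤ _ := this
        _ = _ := by ring

private lemma prod2 {β : Type*} (A : Finset ℕ) (B : Finset β) (f : ℕ → ℝ) (g : β → ℝ) :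
    ∑ x ∈ A ×ˢ B, f x.1 * g x.2 = (∑ n ∈ A, f n) * ∑ b ∈ B, g b := by
  rw [Finset.sum_mul_sum, Finset.sum_product]

private lemma pw2 (z : ℝ) (hz : 0 < z) : z ^ (1 / 180 : ℝ) = (z ^ 2) ^ (1 / 360 : ℝ) := by
  rw [← Real.rpow_natCast, ← Real.rpow_mul hz.le]
  norm_num

/-- a sum over a set of sextuples of a product is at most the product of the sums -/
private lemma sum6 (T : Finset Ix) (f1 f2 f3 f4 f5 f6 : ℕ → ℝ) (p1 : ∀ n, 0 ≤ f1 n)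
    (p2 : ∀ n, 0 ≤ f2 n) (p3 : ∀ n, 0 ≤ f3 n) (p4 : ∀ n, 0 ≤ f4 n) (p5 : ∀ n, 0 ≤ f5 n)
    (p6 : ∀ n, 0 ≤ f6 n) (A1 A2 A3 A4 A5 A6 : Finset ℕ)
    (hT : ∀ x ∈ T, x.1 ∈ A1 ∧ x.2.1 ∈ A2 ∧ x.2.2.1 ∈ A3 ∧ x.2.2.2.1 ∈ A4 ∧ x.2.2.2.2.1 ∈ A5 ∧
      x.2.2.2.2.2 ∈ A6) :
    ∑ x ∈ T, f1 x.1 * (f2 x.2.1 * (f3 x.2.2.1 * (f4 x.2.2.2.1 * (f5 x.2.2.2.2.1 *
      f6 x.2.2.2.2.2)))) ≤
      (∑ n ∈ A1, f1 n) * ((∑ n ∈ A2, f2 n) * ((∑ n ∈ A3, f3 n) * ((∑ n ∈ A4, f4 n) *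
        ((∑ n ∈ A5, f5 n) * (∑ n ∈ A6, f6 n))))) := by
  have hsub : T ⊆ A1 ×ˢ (A2 ×ˢ (A3 ×ˢ (A4 ×ˢ (A5 ×ˢ A6)))) := by
    intro x hx
    obtain ⟨a, b, c, d, e, f⟩ := hT x hx
    simp only [Finset.mem_product]
    exact ⟨a, b, c, d, e, f⟩
  calc _ ≤ ∑ x ∈ A1 ×ˢ (A2 ×ˢ (A3 ×ˢ (A4 ×ˢ (A5 ×ˢ A6)))), f1 x.1 * (f2 x.2.1 *
        (f3 x.2.2.1 * (f4 x.2.2.2.1 * (f5 x.2.2.2.2.1 * f6 x.2.2.2.2.2)))) := by
        refine Finset.sum_le_sum_of_subset_of_nonneg hsub ?_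
        intro x _ _
        have := p1 x.1; have := p2 x.2.1; have := p3 x.2.2.1; have := p4 x.2.2.2.1
        have := p5 x.2.2.2.2.1; have := p6 x.2.2.2.2.2
        positivity
    _ = _ := by
        refine (prod2 A1 (A2 ×ˢ (A3 ×ˢ (A4 ×ˢ (A5 ×ˢ A6)))) f1
          (fun y : ℕ × ℕ × ℕ × ℕ × ℕ => f2 y.1 * (f3 y.2.1 * (f4 y.2.2.1 * (f5 y.2.2.2.1 *
            f6 y.2.2.2.2))))).trans ?_
        congr 1
        refine (prod2 A2 (A3 ×ˢ (A4 ×ˢ (A5 ×ˢ A6))) f2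
          (fun y : ℕ × ℕ × ℕ × ℕ => f3 y.1 * (f4 y.2.1 * (f5 y.2.2.1 * f6 y.2.2.2)))).trans ?_
        congr 1
        refine (prod2 A3 (A4 ×ˢ (A5 ×ˢ A6)) f3
          (fun y : ℕ × ℕ × ℕ => f4 y.1 * (f5 y.2.1 * f6 y.2.2))).trans ?_
        congr 1
        refine (prod2 A4 (A5 ×ˢ A6) f4 (fun y : ℕ × ℕ => f5 y.1 * f6 y.2)).trans ?_
        congr 1
        exact prod2 A5 A6 f5 f6

/-- the sum of `Z ^ (1/360)` over all boxes in the range is bounded -/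
private lemma sumZ : ∃ C : ℝ, 0 < C ∧ ∀ r1 r2 r3 d τ : ℝ, 0 < r1 → 0 < r2 → 0 < r3 → 0 < d →
    0 < τ → ∀ T : Finset Ix, (∀ x ∈ T, RgI r1 r2 r3 d τ x) →
      ∑ x ∈ T, ZI r1 r2 r3 d τ x ^ (1 / 360 : ℝ) ≤ C := by
  obtain ⟨C1, hC1, k1⟩ := geo (1 / 360) (by norm_num)
  obtain ⟨C2, hC2, k2⟩ := geo (1 / 180) (by norm_num)
  refine ⟨(C1 * 8 ^ (1 / 360 : ℝ)) * ((C1 * 8 ^ (1 / 360 : ℝ)) * ((C1 * 8 ^ (1 / 360 : ℝ)) *
    ((C1 * 8 ^ (1 / 360 : ℝ)) * ((C1 * 512 ^ (1 / 360 : ℝ)) * (C2 * 16 ^ (1 / 180 : ℝ)))))),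
    by positivity, ?_⟩
  intro r1 r2 r3 d τ h1 h2 h3 hd hτ T hT
  have hw : 0 < √d := Real.sqrt_pos.mpr hd
  have hU : 0 < r1 * r2 * r3 := by positivity
  have e0 : ∀ x ∈ T, ZI r1 r2 r3 d τ x ^ (1 / 360 : ℝ) =
      (√d / r1 ^ 3 * 2 ^ x.1) ^ (1 / 360 : ℝ) * ((√d / r2 ^ 3 * 2 ^ x.2.1) ^ (1 / 360 : ℝ) *
        ((√d / r3 ^ 3 * 2 ^ x.2.2.1) ^ (1 / 360 : ℝ) *
          ((√d / (r1 * r2 * r3) * 2 ^ x.2.2.2.1) ^ (1 / 360 : ℝ) *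
            ((√d ^ 3 / (r1 * r2 * r3) ^ 3 * 2 ^ x.2.2.2.2.1) ^ (1 / 360 : ℝ) *
              (τ * √d / (r1 * r2 * r3) * 2 ^ x.2.2.2.2.2) ^ (1 / 180 : ℝ))))) := by
    intro x _
    have e6 : (τ * √d / (r1 * r2 * r3) * 2 ^ x.2.2.2.2.2) ^ (1 / 180 : ℝ) =
        ((τ * √d / (r1 * r2 * r3) * 2 ^ x.2.2.2.2.2) ^ 2) ^ (1 / 360 : ℝ) :=
      pw2 _ (by positivity)
    rw [e6, ← Real.mul_rpow (by positivity) (by positivity),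
      ← Real.mul_rpow (by positivity) (by positivity),
      ← Real.mul_rpow (by positivity) (by positivity),
      ← Real.mul_rpow (by positivity) (by positivity),
      ← Real.mul_rpow (by positivity) (by positivity)]
    congr 1
    unfold ZI Zz
    ring
  rw [Finset.sum_congr rfl e0]
  have q1 := k1 (√d / r1 ^ 3) 8 (by positivity) (by norm_num) (T.image fun x => x.1) (by
    intro a ha
    obtain ⟨x, hx, rfl⟩ := Finset.mem_image.mp ha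
    have := (hT x hx).b1
    calc _ = 2 ^ x.1 * √d / r1 ^ 3 := by ring
      _ ≤ 8 := this)
  have q2 := k1 (√d / r2 ^ 3) 8 (by positivity) (by norm_num) (T.image fun x => x.2.1) (by
    intro a ha
    obtain ⟨x, hx, rfl⟩ := Finset.mem_image.mp ha
    have := (hT x hx).b2
    calc _ = 2 ^ x.2.1 * √d / r2 ^ 3 := by ring
      _ ≤ 8 := this)
  have q3 := k1 (√d / r3 ^ 3) 8 (by positivity) (by norm_num) (T.image fun x => x.2.2.1) (by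
    intro a ha
    obtain ⟨x, hx, rfl⟩ := Finset.mem_image.mp ha
    have := (hT x hx).b3
    calc _ = 2 ^ x.2.2.1 * √d / r3 ^ 3 := by ring
      _ ≤ 8 := this)
  have q4 := k1 (√d / (r1 * r2 * r3)) 8 (by positivity) (by norm_num)
    (T.image fun x => x.2.2.2.1) (by
    intro a ha
    obtain ⟨x, hx, rfl⟩ := Finset.mem_image.mp ha
    have := (hT x hx).bk
    calc _ = 2 ^ x.2.2.2.1 * √d / (r1 * r2 * r3) := by ring
      _ ≤ 8 := this)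
  have q5 := k1 (√d ^ 3 / (r1 * r2 * r3) ^ 3) 512 (by positivity) (by norm_num)
    (T.image fun x => x.2.2.2.2.1) (by
    intro a ha
    obtain ⟨x, hx, rfl⟩ := Finset.mem_image.mp ha
    have := (hT x hx).bm
    calc _ = 2 ^ x.2.2.2.2.1 * √d ^ 3 / (r1 * r2 * r3) ^ 3 := by ring
      _ ≤ 512 := this)
  have q6 := k2 (τ * √d / (r1 * r2 * r3)) 16 (by positivity) (by norm_num)
    (T.image fun x => x.2.2.2.2.2) (by
    intro a ha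
    obtain ⟨x, hx, rfl⟩ := Finset.mem_image.mp ha
    have := (hT x hx).bs
    calc _ = τ * 2 ^ x.2.2.2.2.2 * √d / (r1 * r2 * r3) := by ring
      _ ≤ 16 := this)
  refine (sum6 T (fun n => (√d / r1 ^ 3 * 2 ^ n) ^ (1 / 360 : ℝ))
    (fun n => (√d / r2 ^ 3 * 2 ^ n) ^ (1 / 360 : ℝ))
    (fun n => (√d / r3 ^ 3 * 2 ^ n) ^ (1 / 360 : ℝ))
    (fun n => (√d / (r1 * r2 * r3) * 2 ^ n) ^ (1 / 360 : ℝ))
    (fun n => (√d ^ 3 / (r1 * r2 * r3) ^ 3 * 2 ^ n) ^ (1 / 360 : ℝ))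
    (fun n => (τ * √d / (r1 * r2 * r3) * 2 ^ n) ^ (1 / 180 : ℝ))
    (fun n => by positivity) (fun n => by positivity) (fun n => by positivity)
    (fun n => by positivity) (fun n => by positivity) (fun n => by positivity)
    (T.image fun x => x.1) (T.image fun x => x.2.1) (T.image fun x => x.2.2.1)
    (T.image fun x => x.2.2.2.1) (T.image fun x => x.2.2.2.2.1)
    (T.image fun x => x.2.2.2.2.2) ?_).trans ?_
  · intro x hx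
    exact ⟨Finset.mem_image_of_mem _ hx, Finset.mem_image_of_mem _ hx,
      Finset.mem_image_of_mem _ hx, Finset.mem_image_of_mem _ hx, Finset.mem_image_of_mem _ hx,
      Finset.mem_image_of_mem _ hx⟩
  · have n0 : ∀ (c : ℝ) (e : ℝ) (A : Finset ℕ), 0 < c → 0 ≤ ∑ n ∈ A, (c * 2 ^ n) ^ e := by
      intro c e A hc
      exact Finset.sum_nonneg fun n _ => by positivity
    have m6 := q6
    have m5 := mul_le_mul q5 m6 (n0 _ _ _ (by positivity)) (by positivity)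
    have m4 := mul_le_mul q4 m5 (mul_nonneg (n0 _ _ _ (by positivity)) (n0 _ _ _ (by positivity)))
      (by positivity)
    have m3 := mul_le_mul q3 m4 (mul_nonneg (n0 _ _ _ (by positivity))
      (mul_nonneg (n0 _ _ _ (by positivity)) (n0 _ _ _ (by positivity)))) (by positivity)
    have m2 := mul_le_mul q2 m3 (mul_nonneg (n0 _ _ _ (by positivity))
      (mul_nonneg (n0 _ _ _ (by positivity)) (mul_nonneg (n0 _ _ _ (by positivity))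
        (n0 _ _ _ (by positivity))))) (by positivity)
    exact mul_le_mul q1 m2 (mul_nonneg (n0 _ _ _ (by positivity))
      (mul_nonneg (n0 _ _ _ (by positivity)) (mul_nonneg (n0 _ _ _ (by positivity))
        (mul_nonneg (n0 _ _ _ (by positivity)) (n0 _ _ _ (by positivity)))))) (by positivity)

private lemma zpow (r1 r2 r3 d τ δ : ℝ) (x : Ix) (hx : RgI r1 r2 r3 d τ x)
    (hd : ZI r1 r2 r3 d τ x ≤ δ) :
    ZI r1 r2 r3 d τ x ^ (1 / 180 : ℝ) ≤ δ ^ (1 / 360 : ℝ) * ZI r1 r2 r3 d τ x ^ (1 / 360 : ℝ) := by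
  have hZ : 0 < ZI r1 r2 r3 d τ x := by
    have := hx.p1; have := hx.p2; have := hx.p3; have := hx.pk; have := hx.pm; have := hx.ps
    unfold ZI Zz
    positivity
  have e : ZI r1 r2 r3 d τ x ^ (1 / 180 : ℝ) =
      ZI r1 r2 r3 d τ x ^ (1 / 360 : ℝ) * ZI r1 r2 r3 d τ x ^ (1 / 360 : ℝ) := by
    rw [← Real.rpow_add hZ]
    norm_num
  rw [e]
  exact mul_le_mul_of_nonneg_right (Real.rpow_le_rpow hZ.le hd (by norm_num)) (by positivity)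

theorem totC : ∃ C : ℝ, 0 < C ∧ ∀ r1 r2 r3 d Q τ δ : ℝ, 0 < r1 → 0 < r2 → 0 < r3 → 0 < d → 0 < Q →
    0 < τ → 0 < δ → ∀ T : Finset Ix, (∀ x ∈ T, RgI r1 r2 r3 d τ x ∧ ZI r1 r2 r3 d τ x ≤ δ) →
      ∑ x ∈ T, JB x ≤ C * (δ ^ (1 / 360 : ℝ) * ((r1 * r2 * r3) ^ 2 / d) ^ 2) ∧
      ∑ x ∈ T, JB x * JA r1 r2 r3 Q τ x ≤
        C * (δ ^ (1 / 360 : ℝ) * ((r1 * r2 * r3) ^ 3 / (d * √Q))) ∧
      ∑ x ∈ T, JB x * JC r1 r2 r3 τ x ≤ C * (δ ^ (1 / 360 : ℝ) * ((r1 * r2 * r3) ^ 2 / √d)) := by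
  obtain ⟨C, hC, h⟩ := sumZ
  refine ⟨2 ^ 402 * C, by positivity, ?_⟩
  intro r1 r2 r3 d Q τ δ h1 h2 h3 hd hQ hτ hδ T hT
  have hs := h r1 r2 r3 d τ h1 h2 h3 hd hτ T fun x hx => (hT x hx).1
  have key : ∀ (P : ℝ), 0 ≤ P → ∑ x ∈ T, 2 ^ 402 * ZI r1 r2 r3 d τ x ^ (1 / 180 : ℝ) * P ≤
      2 ^ 402 * C * (δ ^ (1 / 360 : ℝ) * P) := by
    intro P hP
    calc ∑ x ∈ T, 2 ^ 402 * ZI r1 r2 r3 d τ x ^ (1 / 180 : ℝ) * P ≤
        ∑ x ∈ T, (2 ^ 402 * δ ^ (1 / 360 : ℝ) * P) * ZI r1 r2 r3 d τ x ^ (1 / 360 : ℝ) := by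
          refine Finset.sum_le_sum fun x hx => ?_
          have := zpow r1 r2 r3 d τ δ x (hT x hx).1 (hT x hx).2
          have hp : (0 : ℝ) ≤ 2 ^ 402 * P := by positivity
          calc _ = (2 ^ 402 * P) * ZI r1 r2 r3 d τ x ^ (1 / 180 : ℝ) := by ring
            _ ≤ (2 ^ 402 * P) * (δ ^ (1 / 360 : ℝ) * ZI r1 r2 r3 d τ x ^ (1 / 360 : ℝ)) :=
              mul_le_mul_of_nonneg_left this hp
            _ = _ := by ring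
      _ = (2 ^ 402 * δ ^ (1 / 360 : ℝ) * P) * ∑ x ∈ T, ZI r1 r2 r3 d τ x ^ (1 / 360 : ℝ) := by
          rw [Finset.mul_sum]
      _ ≤ (2 ^ 402 * δ ^ (1 / 360 : ℝ) * P) * C :=
          mul_le_mul_of_nonneg_left hs (by positivity)
      _ = _ := by ring
  refine ⟨?_, ?_, ?_⟩
  · exact (Finset.sum_le_sum fun x hx => tj1 r1 r2 r3 d τ h1 h2 h3 hd x (hT x hx).1).trans
      (key _ (by positivity))
  · exact (Finset.sum_le_sum fun x hx => tj2 r1 r2 r3 d Q τ h1 h2 h3 hd hQ hτ x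
      (hT x hx).1).trans (key _ (by positivity))
  · exact (Finset.sum_le_sum fun x hx => tj3 r1 r2 r3 d τ h1 h2 h3 hd hτ x
      (hT x hx).1).trans (key _ (by positivity))

end Pool.Agent.PPR
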